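import Mathlib

/-!
# Definitions: Tate classes on products of an arbitrary number of varieties over finite fields
-/

namespace Pool.Agent.Y137.BG

/-- `α` is a Weil number for `q` with a weight `w ∈ W`: an algebraic integer all of whose
conjugates have absolute value `q ^ (w / 2)`. -/
def IsWeil (q : ℕ) (W : Finset ℕ) (α : ℂ) : Prop :=
  IsIntegral ℤ α ∧ ∃ w ∈ W, ∀ β ∈ (minpoly ℚ α).aroots ℂ, ‖β‖ ^ 2 = (q : ℝ) ^ w

/-- The slopes of `α` with respect to `p ^ a` lie in `(1 / m) ℤ`: for every `p`-adic root `x` of
the minimal polynomial of `α` there is an integer `k` with `v_p(x) = a * k / m`. -/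
def SlopesIn (p : ℕ) [Fact p.Prime] (a m : ℕ) (α : ℂ) : Prop :=
  ∀ x ∈ (minpoly ℚ α).aroots (PadicAlgCl p), ∃ k : ℕ, ‖x‖ ^ m = ((p : ℝ)⁻¹) ^ (a * k)

/-- The Weil numbers for `p ^ a` with weight in `W`, of degree at most `d` and with slopes in
`(1 / m) ℤ`. -/
structure IsMember (p : ℕ) [Fact p.Prime] (a : ℕ) (W : Finset ℕ) (d m : ℕ) (α : ℂ) : Prop where
  weil : IsWeil (p ^ a) W α
  degree : (minpoly ℚ α).natDegree ≤ d
  slopes : SlopesIn p a m α

/-- The product of the elements of `s` is a power of `q`, up to a root of unity. -/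
def IsTate (q : ℕ) (s : Multiset ℂ) : Prop :=
  ∃ M N : ℕ, 0 < N ∧ s.prod ^ N = (q : ℂ) ^ (M * N)

/-- The multisets obtained from those with the property `P` by joining two multisets and by
cancelling a number and its complex conjugate. -/
inductive Generated (P : Multiset ℂ → Prop) : Multiset ℂ → Prop
  | base (s : Multiset ℂ) : P s → Generated P s
  | join (s t : Multiset ℂ) : Generated P s → Generated P t → Generated P (s + t)
  | cancel (α : ℂ) (s : Multiset ℂ) :
      Generated P (α ::ₘ (starRingEnd ℂ) α ::ₘ s) → Generated P s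

/-- The multisets of at most `N` Weil numbers for `p ^ a` with weights in `W`, of degree at most
`d` and with slopes in `(1 / m) ℤ` whose product is a power of `p ^ a` up to a root of unity. -/
structure Short (p : ℕ) [Fact p.Prime] (a : ℕ) (W : Finset ℕ) (d m N : ℕ) (s : Multiset ℂ) :
    Prop where
  card : Multiset.card s ≤ N
  member : ∀ α ∈ s, IsMember p a W d m α
  tate : IsTate (p ^ a) s

end Pool.Agent.Y137.BG
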