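import Mathlib

/-!
# Relations between bounded integral vectors are generated by short ones
-/

namespace Pool.Agent.Y137.BG

open Finsupp

noncomputable section

variable {T T' M M' : Type*} [AddCommGroup M] [AddCommGroup M']

/-- The formal sum of a multiset. -/
def dl (u : Multiset T) : T →₀ ℤ := (u.map fun t => single t (1 : ℤ)).sum

/-- The value of a formal sum of letters. -/
def lc (v : T → M) : (T →₀ ℤ) →ₗ[ℤ] M := Finsupp.linearCombination ℤ v

/-- The group generated by the relations of length at most `N`. -/
def Sm (v : T → M) (N : ℕ) : AddSubgroup (T →₀ ℤ) :=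
  AddSubgroup.closure {n | lc v n = 0 ∧
    ∃ a b : Multiset T, Multiset.card a + Multiset.card b ≤ N ∧ n = dl a - dl b}

@[simp] theorem dl_zero : dl (0 : Multiset T) = 0 := by simp [dl]

theorem dl_add (a b : Multiset T) : dl (a + b) = dl a + dl b := by simp [dl]

theorem dl_cons (t : T) (b : Multiset T) : dl (t ::ₘ b) = single t 1 + dl b := by simp [dl]

theorem dl_singleton (t : T) : dl ({t} : Multiset T) = single t 1 := by simp [dl]

theorem dl_nsmul (k : ℕ) (b : Multiset T) : dl (k • b) = k • dl b := by
  induction k with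
  | zero => simp
  | succ k ih => rw [succ_nsmul, succ_nsmul, dl_add, ih]

theorem dl_map (f : T → T') (u : Multiset T) : mapDomain f (dl u) = dl (u.map f) := by
  induction u using Multiset.induction_on with
  | empty => simp
  | cons t u ih => rw [dl_cons, mapDomain_add, ih, Multiset.map_cons, dl_cons, mapDomain_single]

theorem lc_single (v : T → M) (t : T) (k : ℤ) : lc v (single t k) = k • v t := by
  simp [lc]

theorem lc_dl (v : T → M) (u : Multiset T) : lc v (dl u) = (u.map v).sum := by
  induction u using Multiset.induction_on with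
  | empty => simp
  | cons t u ih => rw [dl_cons, map_add, ih, Multiset.map_cons, Multiset.sum_cons, lc_single,
      one_smul]

theorem dl_injective : Function.Injective (dl : Multiset T → (T →₀ ℤ)) := by
  classical
  have h : ∀ (u : Multiset T) (t : T), dl u t = (u.count t : ℤ) := by
    intro u t
    induction u using Multiset.induction_on with
    | empty => simp
    | cons s u ih =>
      rw [dl_cons, Finsupp.add_apply, ih, Multiset.count_cons, Finsupp.single_apply]
      by_cases hs : s = t
      · rw [if_pos hs, if_pos hs.symm]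
        push_cast
        ring
      · rw [if_neg hs, if_neg (fun h => hs h.symm)]
        simp
  intro a b hab
  ext t
  have h1 := DFunLike.congr_fun hab t
  rw [h, h] at h1
  exact_mod_cast h1

theorem exists_dl (n : T →₀ ℤ) : ∃ a b : Multiset T, n = dl a - dl b := by
  induction n using Finsupp.induction_linear with
  | zero => exact ⟨0, 0, by simp⟩
  | add f g hf hg =>
    obtain ⟨a, b, rfl⟩ := hf
    obtain ⟨a', b', rfl⟩ := hg
    refine ⟨a + a', b + b', ?_⟩
    rw [dl_add, dl_add]
    abel
  | single t k =>
    refine ⟨k.toNat • {t}, (-k).toNat • {t}, ?_⟩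
    rw [dl_nsmul, dl_nsmul, dl_singleton, Finsupp.smul_single, Finsupp.smul_single,
      ← Finsupp.single_sub]
    congr 1
    simp only [nsmul_eq_mul, mul_one]
    omega

theorem Sm_mono (v : T → M) {N N' : ℕ} (h : N ≤ N') : Sm v N ≤ Sm v N' := by
  refine AddSubgroup.closure_mono ?_
  rintro n ⟨h1, a, b, h2, h3⟩
  exact ⟨h1, a, b, h2.trans h, h3⟩

theorem lc_mapDomain (v : T → M) (v' : T' → M') (f : T → T') (g : M →+ M')
    (h : ∀ t, v' (f t) = g (v t)) (n : T →₀ ℤ) : lc v' (mapDomain f n) = g (lc v n) := by
  induction n using Finsupp.induction_linear with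
  | zero => simp
  | add x y hx hy => rw [mapDomain_add, map_add, hx, hy, map_add, map_add]
  | single t k => rw [mapDomain_single, lc_single, lc_single, h, map_zsmul]

theorem Sm_map (v : T → M) (v' : T' → M') (f : T → T') (g : M →+ M')
    (h : ∀ t, v' (f t) = g (v t)) {N : ℕ} {n : T →₀ ℤ} (hn : n ∈ Sm v N) :
    mapDomain f n ∈ Sm v' N := by
  have h1 : Sm v N ≤ (Sm v' N).comap (mapDomain.addMonoidHom (M := ℤ) f) := by
    refine (AddSubgroup.closure_le _).2 ?_
    rintro n ⟨h1, a, b, h2, rfl⟩
    change mapDomain f (dl a - dl b) ∈ Sm v' N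
    refine AddSubgroup.subset_closure ⟨?_, a.map f, b.map f, ?_, ?_⟩
    · rw [lc_mapDomain v v' f g h, h1, map_zero]
    · rw [Multiset.card_map, Multiset.card_map]
      exact h2
    · have h3 : mapDomain f (dl a - dl b) = mapDomain f (dl a) - mapDomain f (dl b) :=
        map_sub (mapDomain.addMonoidHom (M := ℤ) f) _ _
      rw [h3, dl_map, dl_map]
  exact h1 hn

theorem finite_bound [Finite T] (v : T → M) : ∃ N, ∀ n : T →₀ ℤ, lc v n = 0 → n ∈ Sm v N := by
  have hN : IsNoetherian ℤ (T →₀ ℤ) := inferInstance
  obtain ⟨S, hS⟩ := hN.noetherian (LinearMap.ker (lc v))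
  choose a b hab using fun n : T →₀ ℤ => exists_dl n
  refine ⟨∑ n ∈ S, (Multiset.card (a n) + Multiset.card (b n)), fun n hn => ?_⟩
  have h1 : n ∈ Submodule.span ℤ (S : Set (T →₀ ℤ)) := by
    rw [hS]
    exact hn
  have h2 : ((Submodule.span ℤ (S : Set (T →₀ ℤ))).toAddSubgroup) =
      AddSubgroup.closure (S : Set (T →₀ ℤ)) := Submodule.span_int_eq_addSubgroupClosure _
  have h3 : n ∈ AddSubgroup.closure (S : Set (T →₀ ℤ)) := by
    rw [← h2]
    exact h1
  refine AddSubgroup.closure_mono ?_ h3
  intro x hx
  refine ⟨?_, a x, b x, ?_, hab x⟩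
  · have : x ∈ Submodule.span ℤ (S : Set (T →₀ ℤ)) := Submodule.subset_span hx
    rw [hS] at this
    exact this
  · exact Finset.single_le_sum (f := fun n => Multiset.card (a n) + Multiset.card (b n))
      (fun _ _ => Nat.zero_le _) hx

theorem types_bound {Wt : Type} [Finite Wt] (v : Wt → M) :
    ∃ N, ∀ (T : Type) (c : T → Wt) (n : T →₀ ℤ), lc (fun t => v (c t)) n = 0 →
      n ∈ Sm (fun t => v (c t)) N := by
  choose N hN using fun S : Set Wt => finite_bound (fun w : S => v w)
  obtain ⟨K, hK⟩ := Finite.exists_le N
  refine ⟨max 2 K, fun T c n hn => ?_⟩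
  choose rep hrep using fun w : Set.range c => w.2
  let f : T → T := fun t => rep ⟨c t, t, rfl⟩
  have hf : ∀ t, c (f t) = c t := fun t => hrep ⟨c t, t, rfl⟩
  have h1 : n - mapDomain f n ∈ Sm (fun t => v (c t)) (max 2 K) := by
    clear hn
    induction n using Finsupp.induction_linear with
    | zero => simp
    | add x y hx hy =>
      have h2 : x + y - mapDomain f (x + y) = (x - mapDomain f x) + (y - mapDomain f y) := by
        rw [mapDomain_add]
        abel
      rw [h2]
      exact add_mem hx hy
    | single t k =>
      have h2 : single t k - mapDomain f (single t k) = k • (single t (1 : ℤ) - single (f t) 1) := by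
        rw [mapDomain_single, smul_sub, Finsupp.smul_single, Finsupp.smul_single, smul_eq_mul,
          mul_one]
      rw [h2]
      have h3 : single t (1 : ℤ) - single (f t) 1 ∈ Sm (fun t => v (c t)) (max 2 K) := by
        refine AddSubgroup.subset_closure ⟨?_, {t}, {f t}, ?_, ?_⟩
        · rw [map_sub, lc_single, lc_single, hf, sub_self]
        · rw [Multiset.card_singleton, Multiset.card_singleton]
          exact le_max_left _ _
        · rw [dl_singleton, dl_singleton]
      exact zsmul_mem h3 k
  have h2 : mapDomain f n ∈ Sm (fun t => v (c t)) (max 2 K) := by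
    let g : T → Set.range c := fun t => ⟨c t, t, rfl⟩
    have h3 : mapDomain f n = mapDomain rep (mapDomain g n) := by
      rw [← mapDomain_comp]
      rfl
    have h4 : lc (fun w : Set.range c => v w) (mapDomain g n) = 0 := by
      rw [lc_mapDomain (fun t => v (c t)) (fun w : Set.range c => v w) g (AddMonoidHom.id M)
        (fun t => rfl), hn, map_zero]
    rw [h3]
    refine Sm_map (fun w : Set.range c => v w) (fun t => v (c t)) rep (AddMonoidHom.id M)
      (fun w => ?_) (Sm_mono _ ((hK _).trans (le_max_right _ _)) (hN _ _ h4))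
    change v (c (rep w)) = v w
    rw [hrep]
  have h5 := add_mem h1 h2
  rwa [sub_add_cancel] at h5

/-- Relations between integral vectors with at most `B` coordinates, bounded by `C`, are generated
by those of length at most `N`, where `N` depends only on `B` and `C`. -/
theorem bounded (B C : ℕ) : ∃ N, ∀ (ι : Type) [Fintype ι], Fintype.card ι ≤ B →
    ∀ (T : Type) (v : T → ι → ℤ), (∀ t i, |v t i| ≤ C) → ∀ n : T →₀ ℤ, lc v n = 0 →
      n ∈ Sm v N := by
  classical
  let Wt := Fin B → Set.Icc (-(C : ℤ)) C
  have : Finite (Set.Icc (-(C : ℤ)) C) := (Set.finite_Icc _ _).to_subtype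
  obtain ⟨N, hN⟩ := types_bound (fun (w : Wt) (i : Fin B) => ((w i : ℤ)))
  refine ⟨N, fun ι _ hι T v hv n hn => ?_⟩
  obtain ⟨e⟩ : Nonempty (ι ↪ Fin B) := by
    apply Function.Embedding.nonempty_of_card_le
    rw [Fintype.card_fin]
    exact hι
  -- extension by zero
  let E : (ι → ℤ) →+ (Fin B → ℤ) :=
    { toFun := fun g k => ∑ i, if e i = k then g i else 0
      map_zero' := by
        funext k
        simp
      map_add' := by
        intro g h
        funext k
        simp only [Pi.add_apply, ← Finset.sum_add_distrib]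
        refine Finset.sum_congr rfl fun i _ => ?_
        split_ifs <;> simp }
  let P : (Fin B → ℤ) →+ (ι → ℤ) :=
    { toFun := fun g i => g (e i)
      map_zero' := rfl
      map_add' := fun _ _ => rfl }
  have hPE : ∀ g, P (E g) = g := by
    intro g
    funext i
    change ∑ j, (if e j = e i then g j else 0) = g i
    rw [Finset.sum_eq_single i]
    · simp
    · intro j _ hj
      rw [if_neg (fun h => hj (e.injective h))]
    · intro h
      exact absurd (Finset.mem_univ i) h
  have hEb : ∀ t k, (E (v t) k) ∈ Set.Icc (-(C : ℤ)) C := by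
    intro t k
    change (∑ i, if e i = k then v t i else 0) ∈ _
    by_cases hk : ∃ i, e i = k
    · obtain ⟨i, rfl⟩ := hk
      rw [Finset.sum_eq_single i]
      · rw [if_pos rfl]
        exact abs_le.1 (hv t i)
      · intro j _ hj
        rw [if_neg (fun h => hj (e.injective h))]
      · intro h
        exact absurd (Finset.mem_univ i) h
    · rw [Finset.sum_eq_zero]
      · simp
      · intro i _
        rw [if_neg (fun h => hk ⟨i, h⟩)]
  let c : T → Wt := fun t k => ⟨E (v t) k, hEb t k⟩
  have h1 : lc (fun t => (fun (i : Fin B) => ((c t i : ℤ)))) n = 0 := by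
    have h2 := lc_mapDomain v (fun t => (fun (i : Fin B) => ((c t i : ℤ)))) id E
      (fun t => rfl) n
    rw [mapDomain_id] at h2
    rw [h2, hn, map_zero]
  have h3 := Sm_map (fun t => (fun (i : Fin B) => ((c t i : ℤ)))) v id P (fun t => by
    change v t = P (E (v t))
    rw [hPE]) (hN T c n h1)
  rwa [mapDomain_id] at h3

end

end Pool.Agent.Y137.BG
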