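import Mathlib
import Pool.Agent.Y137.BG.Defs
import Pool.Agent.Y137.BG.Rel

/-!
# From relations to generated multisets
-/

namespace Pool.Agent.Y137.BG

open Finsupp

noncomputable section

variable {T M : Type*} [AddCommGroup M]

/-- The multiset of complex numbers attached to a pair of multisets of letters. -/
def real (ρ : T → ℂ) (a b : Multiset T) : Multiset ℂ :=
  a.map ρ + b.map fun t => (starRingEnd ℂ) (ρ t)

theorem generated_of_rel (P : Multiset ℂ → Prop) (ρ : T → ℂ) (v : T → M) (N : ℕ) (hN2 : 2 ≤ N)
    (hP : ∀ a b : Multiset T, Multiset.card a + Multiset.card b ≤ N →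
      (a.map v).sum = (b.map v).sum → P (real ρ a b))
    (hrel : ∀ n : T →₀ ℤ, lc v n = 0 → n ∈ Sm v N) (a b : Multiset T)
    (hab : (a.map v).sum = (b.map v).sum) : Generated P (real ρ a b) := by
  have hpair : ∀ x : Multiset T, Generated P (real ρ x x) := by
    intro x
    induction x using Multiset.induction_on with
    | empty => exact Generated.base _ (hP 0 0 (by simp) rfl)
    | cons t x ih =>
      have h1 : Generated P (real ρ {t} {t}) := Generated.base _ (hP {t} {t} (by simpa) rfl)
      have h2 : real ρ (t ::ₘ x) (t ::ₘ x) = real ρ {t} {t} + real ρ x x := by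
        unfold real
        simp only [← Multiset.singleton_add, Multiset.map_add, Multiset.map_singleton]
        abel
      rw [h2]
      exact Generated.join _ _ h1 ih
  have hcancel : ∀ x a b : Multiset T, Generated P (real ρ (a + x) (b + x)) →
      Generated P (real ρ a b) := by
    intro x
    induction x using Multiset.induction_on with
    | empty =>
      intro a b h
      rwa [add_zero, add_zero] at h
    | cons t x ih =>
      intro a b h
      apply ih
      apply Generated.cancel (ρ t)
      have h2 : ρ t ::ₘ (starRingEnd ℂ) (ρ t) ::ₘ real ρ (a + x) (b + x) =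
          real ρ (a + t ::ₘ x) (b + t ::ₘ x) := by
        unfold real
        simp only [← Multiset.singleton_add, Multiset.map_add, Multiset.map_singleton]
        abel
      rw [h2]
      exact h
  have hjoin : ∀ a b a' b' : Multiset T, Generated P (real ρ a b) → Generated P (real ρ a' b') →
      Generated P (real ρ (a + a') (b + b')) := by
    intro a b a' b' h h'
    have h2 : real ρ (a + a') (b + b') = real ρ a b + real ρ a' b' := by
      unfold real
      simp only [Multiset.map_add]
      abel
    rw [h2]
    exact Generated.join _ _ h h'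
  have key : ∀ n ∈ Sm v N, (∃ a b : Multiset T, n = dl a - dl b ∧ Generated P (real ρ a b)) ∧
      ∃ a b : Multiset T, -n = dl a - dl b ∧ Generated P (real ρ a b) := by
    intro n hn
    refine AddSubgroup.closure_induction (p := fun n _ =>
      (∃ a b : Multiset T, n = dl a - dl b ∧ Generated P (real ρ a b)) ∧
      ∃ a b : Multiset T, -n = dl a - dl b ∧ Generated P (real ρ a b)) ?_ ?_ ?_ ?_ hn
    · rintro n ⟨h0, a, b, hc, rfl⟩
      rw [map_sub, lc_dl, lc_dl, sub_eq_zero] at h0
      refine ⟨⟨a, b, rfl, Generated.base _ (hP a b hc h0)⟩,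
        ⟨b, a, neg_sub _ _, Generated.base _ (hP b a (by rwa [add_comm]) h0.symm)⟩⟩
    · refine ⟨⟨0, 0, by simp, hpair 0⟩, ⟨0, 0, by simp, hpair 0⟩⟩
    · rintro x y - - ⟨⟨a, b, h1, h2⟩, a', b', h3, h4⟩ ⟨⟨c, d, h5, h6⟩, c', d', h7, h8⟩
      refine ⟨⟨a + c, b + d, ?_, hjoin _ _ _ _ h2 h6⟩, ⟨a' + c', b' + d', ?_, hjoin _ _ _ _ h4 h8⟩⟩
      · rw [h1, h5, dl_add, dl_add]
        abel
      · rw [neg_add, h3, h7, dl_add, dl_add]
        abel
    · rintro x - ⟨h1, h2⟩
      refine ⟨h2, ?_⟩
      rwa [neg_neg]
  obtain ⟨⟨a', b', h1, h2⟩, -⟩ := key (dl a - dl b) (hrel _ (by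
    rw [map_sub, lc_dl, lc_dl, hab, sub_self]))
  have h3 : a + b' = a' + b := by
    apply dl_injective
    rw [dl_add, dl_add]
    have h4 : dl a + dl b' = (dl a - dl b) + dl b + dl b' := by abel
    rw [h4, h1]
    abel
  have h4 := hjoin _ _ _ _ h2 (hpair b)
  rw [← h3, add_comm b' b] at h4
  exact hcancel b' a b h4

end

end Pool.Agent.Y137.BG
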