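import Mathlib
import Pool.Agent.Y137.BG.Rel

/-!
# Averages over normal subgroups and relations between functions on a finite group
-/

namespace Pool.Agent.Y137.BG

open Finsupp

noncomputable section

variable {G : Type} [Group G] [Finite G]

/-- The group of elements under which a function on a group is invariant. -/
def inv {A : Type*} (f : G → A) : Subgroup G where
  carrier := {g | ∀ σ, f (σ * g) = f σ}
  mul_mem' := by
    intro a b ha hb σ
    rw [← mul_assoc, hb, ha]
  one_mem' := fun σ => by rw [mul_one]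
  inv_mem' := by
    intro a ha σ
    have h := ha (σ * a⁻¹)
    rw [inv_mul_cancel_right] at h
    exact h.symm

/-- The average of a function over the cosets of a subgroup. -/
def avg (K : Subgroup G) : (G → ℝ) →+ (G → ℝ) where
  toFun f σ := (∑ᶠ k : K, f (σ * k)) / Nat.card K
  map_zero' := by
    funext σ
    simp
  map_add' := by
    intro f g
    funext σ
    simp only [Pi.add_apply]
    rw [finsum_add_distrib (Set.toFinite _) (Set.toFinite _), add_div]

theorem avg_apply (K : Subgroup G) [Fintype K] (f : G → ℝ) (σ : G) :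
    avg K f σ = (∑ k : K, f (σ * k)) / Fintype.card K := by
  change (∑ᶠ k : K, f (σ * k)) / Nat.card K = _
  rw [finsum_eq_sum_of_fintype, Nat.card_eq_fintype_card]

theorem le_inv_avg (K : Subgroup G) (f : G → ℝ) : K ≤ inv (avg K f) := by
  classical
  have _ : Fintype K := Fintype.ofFinite K
  intro k hk σ
  rw [avg_apply, avg_apply]
  congr 1
  refine Fintype.sum_equiv (Equiv.mulLeft (⟨k, hk⟩ : K)) _ _ fun x => ?_
  change f (σ * k * x) = f (σ * (k * x))
  rw [mul_assoc]

theorem avg_of_le (K : Subgroup G) (f : G → ℝ) (h : K ≤ inv f) : avg K f = f := by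
  classical
  have _ : Fintype K := Fintype.ofFinite K
  funext σ
  rw [avg_apply]
  have h1 : ∀ k : K, f (σ * k) = f σ := fun k => h k.2 σ
  simp only [h1]
  rw [Finset.sum_const, Finset.card_univ, nsmul_eq_mul, mul_div_assoc, mul_comm, div_mul_cancel₀]
  exact Nat.cast_ne_zero.2 Fintype.card_ne_zero

theorem avg_avg_of_le (K H : Subgroup G) (hKH : K ≤ H) (f : G → ℝ) :
    avg H (avg K f) = avg H f := by
  classical
  have _ : Fintype K := Fintype.ofFinite K
  have _ : Fintype H := Fintype.ofFinite H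
  funext σ
  rw [avg_apply, avg_apply]
  congr 1
  simp only [avg_apply]
  rw [← Finset.sum_div, Finset.sum_comm]
  have h1 : ∀ k : K, ∑ h : H, f (σ * h * k) = ∑ h : H, f (σ * h) := by
    intro k
    refine Fintype.sum_equiv (Equiv.mulRight (⟨k, hKH k.2⟩ : H)) _ _ fun x => ?_
    change f (σ * x * k) = f (σ * (x * k))
    rw [mul_assoc]
  simp only [h1]
  rw [Finset.sum_const, Finset.card_univ, nsmul_eq_mul, mul_div_assoc, mul_comm, div_mul_cancel₀]
  exact Nat.cast_ne_zero.2 Fintype.card_ne_zero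

theorem inv_avg (K N : Subgroup G) [hN : N.Normal] (f : G → ℝ) (h : K ≤ inv f) :
    K ≤ inv (avg N f) := by
  classical
  have _ : Fintype N := Fintype.ofFinite N
  intro k hk σ
  rw [avg_apply, avg_apply]
  congr 1
  refine Fintype.sum_equiv (MulAut.conjNormal k).toEquiv _ _ fun x => ?_
  change f (σ * k * x) = f (σ * ((MulAut.conjNormal k x : N) : G))
  rw [MulAut.conjNormal_apply]
  have h1 := h hk (σ * (k * x * k⁻¹))
  rw [← h1]
  congr 1
  group

theorem avg_avg (K N : Subgroup G) [hN : N.Normal] (f : G → ℝ) :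
    avg N (avg K f) = avg (K ⊔ N) f := by
  have h1 : K ⊔ N ≤ inv (avg N (avg K f)) :=
    sup_le (inv_avg K N _ (le_inv_avg K f)) (le_inv_avg N _)
  rw [← avg_of_le (K ⊔ N) _ h1, avg_avg_of_le N _ le_sup_right, avg_avg_of_le K _ le_sup_left]

/-- Normal subgroups of index at most `B`. -/
def NS (B : ℕ) (G : Type) [Group G] : Type := {K : Subgroup G // K.Normal ∧ K.index ≤ B}

/-- The join of two normal subgroups. -/
def NS.sup {B : ℕ} (K N : NS B G) : NS B G :=
  ⟨K.1 ⊔ N.1, by
    have := K.2.1
    have := N.2.1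
    infer_instance, (Subgroup.index_antitone le_sup_left).trans K.2.2⟩

variable {X : Type} {B : ℕ}

/-- The averages of the functions `Φ x`. -/
def vec (Φ : X → G → ℝ) (t : X × NS B G) : G → ℝ := avg t.2.1 (Φ t.1)

theorem exists_lift (B C : ℕ) : ∃ N₀, ∀ (G : Type) [Group G] [Finite G] (X : Type)
    (Φ : X → G → ℝ) (u : ℝ), u ≠ 0 →
    (∀ (t : X × NS B G) σ, ∃ z : ℤ, |z| ≤ C ∧ vec Φ t σ = u * z) →
    ∀ (N : NS B G) (n : (X × NS B G) →₀ ℤ), lc (vec Φ) n = 0 →
      mapDomain (fun t => (t.1, t.2.sup N)) n ∈ Sm (vec Φ) N₀ := by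
  classical
  obtain ⟨N₀, hN₀⟩ := bounded B C
  refine ⟨N₀, fun G _ _ X Φ u hu hΦ N n hn => ?_⟩
  have hN1 := N.2.1
  choose z hz1 hz2 using hΦ
  let TN := {t : X × NS B G // N.1 ≤ t.2.1}
  let f : X × NS B G → TN := fun t => ⟨(t.1, t.2.sup N), le_sup_right⟩
  let v : TN → (G ⧸ N.1) → ℤ := fun t i => z t.1 (Quotient.out i)
  let E : ((G ⧸ N.1) → ℤ) →+ (G → ℝ) :=
    { toFun := fun g σ => u * g (QuotientGroup.mk σ)
      map_zero' := by
        funext σ
        simp
      map_add' := by
        intro g h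
        funext σ
        simp only [Pi.add_apply, Int.cast_add]
        ring }
  have hE : Function.Injective E := by
    intro g h hgh
    funext i
    obtain ⟨σ, rfl⟩ := QuotientGroup.mk_surjective i
    have h1 := congrFun hgh σ
    change u * (g (QuotientGroup.mk σ) : ℝ) = u * h (QuotientGroup.mk σ) at h1
    have h2 := mul_left_cancel₀ hu h1
    exact_mod_cast h2
  have hEv : ∀ t : TN, vec Φ t.1 = E (v t) := by
    intro t
    funext σ
    change vec Φ t.1 σ = u * (z t.1 (Quotient.out (QuotientGroup.mk σ : G ⧸ N.1)) : ℝ)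
    rw [← hz2]
    have h1 : σ⁻¹ * Quotient.out (QuotientGroup.mk σ : G ⧸ N.1) ∈ N.1 :=
      QuotientGroup.eq.1 (QuotientGroup.out_eq' _).symm
    have h2 := le_inv_avg t.1.2.1 (Φ t.1.1) (t.2 h1) σ
    rw [mul_inv_cancel_left] at h2
    exact h2.symm
  have h1 : lc (fun t : TN => vec Φ t.1) (mapDomain f n) = 0 := by
    have h2 := lc_mapDomain (vec Φ) (fun t : TN => vec Φ t.1) f (avg N.1) (fun t => by
      change avg (t.2.1 ⊔ N.1) (Φ t.1) = avg N.1 (avg t.2.1 (Φ t.1))
      rw [avg_avg]) n
    rw [h2, hn, map_zero]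
  have h2 : lc v (mapDomain f n) = 0 := by
    apply hE
    have h3 := lc_mapDomain v (fun t : TN => vec Φ t.1) id E hEv (mapDomain f n)
    rw [mapDomain_id] at h3
    rw [← h3, h1, map_zero]
  have h3 : mapDomain f n ∈ Sm v N₀ := by
    have _ : Fintype (G ⧸ N.1) := Fintype.ofFinite _
    refine hN₀ (G ⧸ N.1) ?_ TN v (fun t i => hz1 _ _) _ h2
    rw [← Nat.card_eq_fintype_card]
    exact N.2.2
  have h4 := Sm_map v (vec Φ) (Subtype.val : TN → X × NS B G) E hEv h3
  rw [← mapDomain_comp] at h4
  exact h4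

/-- **Bounded generation of relations between averaged functions.** -/
theorem main_rel (B C : ℕ) : ∃ N₀, ∀ (G : Type) [Group G] [Finite G] (X : Type)
    (Φ : X → G → ℝ) (u : ℝ), u ≠ 0 →
    (∀ (t : X × NS B G) σ, ∃ z : ℤ, |z| ≤ C ∧ vec Φ t σ = u * z) →
    ∀ (n : (X × NS B G) →₀ ℤ), lc (vec Φ) n = 0 → n ∈ Sm (vec Φ) N₀ := by
  classical
  obtain ⟨N₀, hN₀⟩ := exists_lift B C
  refine ⟨N₀, fun G _ _ X Φ u hu hΦ n hn => ?_⟩
  have hfin : Finite (NS B G) := by
    unfold NS
    infer_instance
  have _ : Fintype (NS B G) := Fintype.ofFinite _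
  have key : ∀ (k : ℕ) (S : Finset (NS B G)), S.card = k →
      (∀ K ∈ S, ∀ K' : NS B G, K.1 ≤ K'.1 → K' ∈ S) →
      ∀ n ∈ Finsupp.supported ℤ ℤ {t : X × NS B G | t.2 ∈ S}, lc (vec Φ) n = 0 →
        n ∈ Sm (vec Φ) N₀ := by
    intro k
    induction k with
    | zero =>
      intro S hS _ n hn _
      rw [Finset.card_eq_zero] at hS
      subst hS
      have h1 : {t : X × NS B G | t.2 ∈ (∅ : Finset (NS B G))} = ∅ := by
        ext t
        simp
      rw [h1, Finsupp.supported_empty] at hn
      rw [(Submodule.mem_bot ℤ).1 hn]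
      exact zero_mem _
    | succ k ih =>
      intro S hS hup n hn hn0
      have hne : S.Nonempty := by
        rw [← Finset.card_pos, hS]
        exact Nat.succ_pos _
      -- a minimal element
      obtain ⟨N, hNS, hmin⟩ : ∃ N ∈ S, ∀ K ∈ S, K.1 ≤ N.1 → K = N := by
        obtain ⟨H, hH⟩ := (S.image (fun K : NS B G => K.1)).exists_minimal (hne.image _)
        obtain ⟨N, hN1, hN2⟩ := Finset.mem_image.1 hH.1
        refine ⟨N, hN1, fun K hK hKN => ?_⟩
        apply Subtype.ext
        refine le_antisymm hKN ?_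
        have h1 := hH.2 (Finset.mem_image_of_mem _ hK)
        rw [← hN2] at h1
        exact h1 hKN
      have h1 := hN₀ G X Φ u hu hΦ N n hn0
      have h2 : lc (vec Φ) (mapDomain (fun t => (t.1, t.2.sup N)) n) = 0 := by
        have hN1 := N.2.1
        have h2 := lc_mapDomain (vec Φ) (vec Φ) (fun t : X × NS B G => (t.1, t.2.sup N)) (avg N.1)
          (fun t => by
            change avg (t.2.1 ⊔ N.1) (Φ t.1) = avg N.1 (avg t.2.1 (Φ t.1))
            rw [avg_avg]) n
        rw [h2, hn0, map_zero]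
      have h3 : n - mapDomain (fun t => (t.1, t.2.sup N)) n ∈
          Finsupp.supported ℤ ℤ {t : X × NS B G | t.2 ∈ S.erase N} := by
        let φ : ((X × NS B G) →₀ ℤ) →ₗ[ℤ] ((X × NS B G) →₀ ℤ) :=
          LinearMap.id - Finsupp.lmapDomain ℤ ℤ (fun t => (t.1, t.2.sup N))
        change n ∈ (Finsupp.supported ℤ ℤ {t : X × NS B G | t.2 ∈ S.erase N}).comap φ
        have h4 : Finsupp.supported ℤ ℤ {t : X × NS B G | t.2 ∈ S} ≤
            (Finsupp.supported ℤ ℤ {t : X × NS B G | t.2 ∈ S.erase N}).comap φ := by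
          rw [Finsupp.supported_eq_span_single, Submodule.span_le]
          rintro _ ⟨t, ht, rfl⟩
          change single t (1 : ℤ) - mapDomain (fun t => (t.1, t.2.sup N)) (single t (1 : ℤ)) ∈
            Finsupp.supported ℤ ℤ {t : X × NS B G | t.2 ∈ S.erase N}
          rw [mapDomain_single]
          by_cases htN : t.2 = N
          · have h5 : (t.1, t.2.sup N) = t := by
              refine Prod.ext rfl (Subtype.ext ?_)
              change t.2.1 ⊔ N.1 = t.2.1
              rw [htN, sup_idem]
            rw [h5, sub_self]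
            exact zero_mem _
          · refine sub_mem (Finsupp.single_mem_supported ℤ _ ?_)
              (Finsupp.single_mem_supported ℤ _ ?_)
            · exact Finset.mem_erase.2 ⟨htN, ht⟩
            · refine Finset.mem_erase.2 ⟨fun h => htN ?_, hup _ ht _ le_sup_left⟩
              apply hmin _ ht
              have h6 := congrArg Subtype.val h
              change t.2.1 ⊔ N.1 = N.1 at h6
              rw [← h6]
              exact le_sup_left
        exact h4 hn
      have h4 : n - mapDomain (fun t => (t.1, t.2.sup N)) n ∈ Sm (vec Φ) N₀ := by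
        refine ih (S.erase N) (by rw [Finset.card_erase_of_mem hNS, hS]; rfl) ?_ _ h3
          (by rw [map_sub, hn0, h2, sub_zero])
        intro K hK K' hKK'
        rw [Finset.mem_erase] at hK ⊢
        refine ⟨fun h => hK.1 ?_, hup K hK.2 K' hKK'⟩
        rw [h] at hKK'
        exact hmin K hK.2 hKK'
      have h5 := add_mem h4 h1
      rwa [sub_add_cancel] at h5
  refine key _ Finset.univ rfl (fun _ _ _ _ => Finset.mem_univ _) n ?_ hn
  rw [Finsupp.mem_supported]
  intro t _
  exact Finset.mem_univ _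

end

end Pool.Agent.Y137.BG
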