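import Mathlib

/-!
# Abelian varieties over finite fields up to isogeny, and systems of cohomology classes
-/

namespace Pool.Agent.Y137.BG

open Polynomial Sum

/-- A finite-dimensional vector space with a diagonalisable endomorphism (the geometric Frobenius over
the field with `p ^ a` elements), given by the eigenvalues `eig i` in an eigenbasis with the index
set `ι`; `w` is the weight. -/
structure Frob where
  a : ℕ
  w : ℕ
  ι : Type
  [fintype : Fintype ι]
  eig : ι → ℂ

attribute [instance] Frob.fintype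

/-- The vector space, with complex coefficients. -/
abbrev Frob.V (C : Frob) : Type := C.ι → ℂ

/-- The Frobenius endomorphism. -/
def Frob.F (C : Frob) : Module.End ℂ C.V := LinearMap.pi fun i => C.eig i • LinearMap.proj i

/-- Properties of (the dual space of) the part of weight `w` of the `ℓ`-adic cohomology in degree
`w ≥ 1` of a smooth variety over the field with `p ^ a` elements on which Frobenius is
semisimple: the eigenvalues are algebraic integers, the set of eigenvalues is stable under
conjugation over `ℚ`, the absolute values are `p ^ (a * w / 2)`, and the `p`-adic valuations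
(normalised by the valuation of `p ^ a`) are rational numbers whose denominators are at most the
dimension. The dimension is at most `B` and the weight is at most `W`. -/
structure IsPure (p : ℕ) [Fact p.Prime] (B W : ℕ) (C : Frob) : Prop where
  pos : 0 < C.a
  weight_pos : 0 < C.w
  weight_le : C.w ≤ W
  card_le : Nat.card C.ι ≤ B
  integral : ∀ i, IsIntegral ℤ (C.eig i)
  conj : ∀ i, ∀ β ∈ (minpoly ℚ (C.eig i)).rootSet ℂ, ∃ j, C.eig j = β
  weil : ∀ i, ‖C.eig i‖ ^ 2 = (p : ℝ) ^ (C.a * C.w)
  slopes : ∀ i, ∀ x ∈ (minpoly ℚ (C.eig i)).rootSet (PadicAlgCl p), ∃ c k : ℕ,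
    0 < c ∧ c ≤ Nat.card C.ι ∧ ‖x‖ ^ c = ((p : ℝ)⁻¹) ^ (C.a * k)

/-- An abelian variety over the field with `p ^ a` elements, up to isogeny, in the description of
Weil, Honda and Tate. It is isogenous to the product of finitely many isotypic abelian varieties
`B j`. The characteristic polynomial of the Frobenius endomorphism of `B j` is the power with the
exponent `n j` of the minimal polynomial of a Weil number `π j` (`integral`, `weil`). Such an abelian
variety `B j` exists if and only if all the local invariants of the division algebra defined by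
`π j`, multiplied by `n j`, are integers: at a real place the invariant is `1 / 2` (`real`), and at
the `p`-adic place given by a root `x` of the minimal polynomial it is the valuation of `x`,
normalised by the valuation of `p ^ a`, multiplied by the degree of `x` over `ℚ_p`
(`hondaTate`). -/
structure AbVar (p : ℕ) [Fact p.Prime] where
  a : ℕ
  pos : 0 < a
  J : Type
  [fintype : Fintype J]
  π : J → ℂ
  n : J → ℕ
  integral : ∀ j, IsIntegral ℤ (π j)
  weil : ∀ j, ∀ β ∈ (minpoly ℚ (π j)).rootSet ℂ, ‖β‖ ^ 2 = (p : ℝ) ^ a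
  real : ∀ j, (π j).im = 0 → Even (n j)
  hondaTate : ∀ j, ∀ x ∈ (minpoly ℚ (π j)).rootSet (PadicAlgCl p), ∃ k : ℕ,
    ‖x‖ ^ (n j * (minpoly ℚ_[p] x).natDegree) = ((p : ℝ)⁻¹) ^ (a * k)

attribute [instance] AbVar.fintype

variable {p : ℕ} [Fact p.Prime]

/-- The Tate module of an abelian variety, with coefficients in an algebraic closure of `ℚ_ℓ` (which
we identify with the field of complex numbers), and its Frobenius endomorphism. The dimension is
twice the dimension of the abelian variety. -/
noncomputable abbrev AbVar.frob (A : AbVar p) : Frob where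
  a := A.a
  w := 1
  ι := Σ j : A.J, ((minpoly ℚ (A.π j)).rootSet ℂ) × Fin (A.n j)
  eig := fun i => i.2.1

variable {𝒳 : Type} (H : 𝒳 → Frob)

/-- The space of an object: an abelian variety, or a member `X` of the class `𝒳` of varieties (or
rather pairs of a variety and a degree of cohomology). -/
noncomputable abbrev frob : AbVar p ⊕ 𝒳 → Frob := Sum.elim AbVar.frob H

/-- A linear map of the Tate modules that commutes with the Frobenius endomorphisms over a common
finite extension of the ground fields. By the theorem of Tate these are the linear combinations of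
the homomorphisms over finite extensions. -/
def IsHom (A A' : AbVar p) (h : A.frob.V →ₗ[ℂ] A'.frob.V) : Prop :=
  ∃ s t : ℕ, 0 < s ∧ 0 < t ∧ A.a * s = A'.a * t ∧
    ∀ v, h ((A.frob.F ^ s) v) = (A'.frob.F ^ t) (h v)

/-- The linear combinations of homomorphisms of abelian varieties, and identities. -/
inductive IsMor : ∀ Y Y' : AbVar p ⊕ 𝒳, ((frob H Y).V →ₗ[ℂ] (frob H Y').V) → Prop
  | hom (A A' : AbVar p) (h : A.frob.V →ₗ[ℂ] A'.frob.V) (hh : IsHom A A' h) :
      IsMor (inl A) (inl A') h
  | id (Y : AbVar p ⊕ 𝒳) : IsMor Y Y LinearMap.id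

/-- The multilinear form `φ` (a cohomology class of degree `∑ w k = 2 m` on the product of the objects
`Y k`) is a Tate class: over some finite extension with `p ^ b` elements of the ground fields, the
Frobenius multiplies it by `(p ^ b) ^ m`. -/
def IsTateClass {κ : Type} [Fintype κ] (Y : κ → AbVar p ⊕ 𝒳)
    (φ : MultilinearMap ℂ (fun k => (frob H (Y k)).V) ℂ) : Prop :=
  ∃ (s : κ → ℕ) (b m : ℕ), 0 < b ∧ (∀ k, (frob H (Y k)).a * s k = b) ∧
    ∑ k, (frob H (Y k)).w = 2 * m ∧
    ∀ v : ∀ k, (frob H (Y k)).V,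
      φ (fun k => ((frob H (Y k)).F ^ s k) (v k)) = (p : ℂ) ^ (b * m) * φ v

/-- `Y` and `Y'` are abelian varieties, and `x` and `x'` are eigenvectors of the Frobenius of their
Tate modules over an extension with `p ^ b` elements, and the product of the eigenvalues is
`p ^ b`. So `x ⊗ x'` is a Tate class in the second homology of `Y × Y'`; these are spanned by
classes of algebraic curves. -/
def IsTatePair (Y Y' : AbVar p ⊕ 𝒳) (x : (frob H Y).V) (x' : (frob H Y').V) : Prop :=
  Y.isLeft ∧ Y'.isLeft ∧ ∃ (s s' b : ℕ) (α α' : ℂ), 0 < b ∧ (frob H Y).a * s = b ∧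
    (frob H Y').a * s' = b ∧ ((frob H Y).F ^ s) x = α • x ∧ ((frob H Y').F ^ s') x' = α' • x' ∧
    α * α' = (p : ℂ) ^ b

/-- A system of cohomology classes on the products of abelian varieties and of members of `𝒳`: for
all finite families of objects `Y k`, a set of multilinear forms on their spaces. -/
abbrev ClassSystem (p : ℕ) [Fact p.Prime] {𝒳 : Type} (H : 𝒳 → Frob) : Type 1 :=
  ∀ (κ : Type) (Y : κ → AbVar p ⊕ 𝒳), MultilinearMap ℂ (fun k => (frob H (Y k)).V) ℂ → Prop

/-- Formal properties of the system of the linear combinations of classes of algebraic cycles: it is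
stable under linear combinations, exterior products, pull-backs along homomorphisms of abelian
varieties, and under the cap product with classes of curves on the product of two of the factors
which are abelian varieties. -/
structure IsStable (𝒜 : ClassSystem p H) : Prop where
  zero : ∀ {κ : Type} [Fintype κ] (Y : κ → AbVar p ⊕ 𝒳), 𝒜 κ Y 0
  add : ∀ {κ : Type} [Fintype κ] (Y : κ → AbVar p ⊕ 𝒳)
    (φ φ' : MultilinearMap ℂ (fun k => (frob H (Y k)).V) ℂ),
    𝒜 κ Y φ → 𝒜 κ Y φ' → 𝒜 κ Y (φ + φ')
  smul : ∀ {κ : Type} [Fintype κ] (Y : κ → AbVar p ⊕ 𝒳) (c : ℂ)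
    (φ : MultilinearMap ℂ (fun k => (frob H (Y k)).V) ℂ), 𝒜 κ Y φ → 𝒜 κ Y (c • φ)
  prod : ∀ {κ κ₁ κ₂ : Type} [Fintype κ] [Fintype κ₁] [Fintype κ₂] (e : κ₁ ⊕ κ₂ ≃ κ)
    (Y : κ → AbVar p ⊕ 𝒳) (φ₁ : MultilinearMap ℂ (fun k => (frob H (Y (e (inl k)))).V) ℂ)
    (φ₂ : MultilinearMap ℂ (fun k => (frob H (Y (e (inr k)))).V) ℂ)
    (ψ : MultilinearMap ℂ (fun k => (frob H (Y k)).V) ℂ),
    𝒜 κ₁ (fun k => Y (e (inl k))) φ₁ → 𝒜 κ₂ (fun k => Y (e (inr k))) φ₂ →
    (∀ v : ∀ k, (frob H (Y k)).V,
      ψ v = φ₁ (fun k => v (e (inl k))) * φ₂ (fun k => v (e (inr k)))) → 𝒜 κ Y ψ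
  pull : ∀ {κ : Type} [Fintype κ] (Y Y' : κ → AbVar p ⊕ 𝒳)
    (h : ∀ k, (frob H (Y k)).V →ₗ[ℂ] (frob H (Y' k)).V)
    (φ : MultilinearMap ℂ (fun k => (frob H (Y' k)).V) ℂ),
    (∀ k, IsMor H (Y k) (Y' k) (h k)) → 𝒜 κ Y' φ → 𝒜 κ Y (φ.compLinearMap h)
  cap : ∀ {κ : Type} [Fintype κ] (Y : κ ⊕ Bool → AbVar p ⊕ 𝒳)
    (x : ∀ c : Bool, (frob H (Y (inr c))).V)
    (φ : MultilinearMap ℂ (fun k => (frob H (Y k)).V) ℂ)
    (ψ : MultilinearMap ℂ (fun k => (frob H (Y (inl k))).V) ℂ),
    IsTatePair H (Y (inr false)) (Y (inr true)) (x false) (x true) → 𝒜 (κ ⊕ Bool) Y φ →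
    (∀ v : ∀ k, (frob H (Y (inl k))).V, ψ v = φ (fun k => Sum.rec v x k)) →
    𝒜 κ (fun k => Y (inl k)) ψ

/-- All simple factors of the abelian variety `A`, over an algebraic closure of the ground field, have
dimension at most `B / 2`: each eigenvalue of Frobenius is, over a finite extension of the ground
field, an eigenvalue of Frobenius on an abelian variety of dimension at most `B / 2`. -/
def HasSmallFactors (B : ℕ) (A : AbVar p) : Prop :=
  ∀ i : A.frob.ι, ∃ (A' : AbVar p) (j : A'.frob.ι) (s t : ℕ), Nat.card A'.frob.ι ≤ B ∧ 0 < s ∧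
    0 < t ∧ A.a * s = A'.a * t ∧ A.frob.eig i ^ s = A'.frob.eig j ^ t

/-- At most one of the objects `Y k` is not an abelian variety. -/
def AtMostOneVariety {κ : Type} (Y : κ → AbVar p ⊕ 𝒳) : Prop :=
  ∀ k l, (Y k).isRight → (Y l).isRight → k = l

end Pool.Agent.Y137.BG
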