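import Mathlib
import Pool.Agent.H485R3.Exact.ExoticMain
import Pool.Agent.Y137.BG.Defs
import Pool.Agent.Y137.BG.Avg

/-!
# Products over orbits and Weil numbers
-/

set_option linter.unusedSectionVars false

namespace Pool.Agent.Y137.BG

open Finsupp Polynomial

noncomputable section

variable {p : ℕ} [Fact p.Prime] {L : Type} [Field L] [NumberField L] [IsGalois ℚ L]

theorem norm_p : ‖(p : PadicAlgCl p)‖ = (p : ℝ)⁻¹ := by
  have h4 : (p : PadicAlgCl p) = algebraMap ℚ_[p] (PadicAlgCl p) (p : ℚ_[p]) := by simp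
  rw [h4, PadicAlgCl.norm_extends]
  exact Padic.norm_p

/-- The roots of the minimal polynomial are the values at the conjugates. -/
theorem mem_aroots_iff {E : Type*} [Field E] [Algebra ℚ E] (τ : L →ₐ[ℚ] E) (b : L) (β : E) :
    β ∈ (minpoly ℚ (τ b)).aroots E ↔ ∃ σ : L ≃ₐ[ℚ] L, τ (σ b) = β := by
  have hb : IsIntegral ℚ b := Algebra.IsIntegral.isIntegral b
  have h0 : minpoly ℚ (τ b) = minpoly ℚ b := minpoly.algHom_eq τ τ.injective b
  rw [h0, mem_aroots]
  constructor
  · rintro ⟨-, h⟩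
    have h1 : ((minpoly ℚ b).map (algebraMap ℚ L)).Splits :=
      Normal.splits (inferInstance : Normal ℚ L) b
    have h2 : ((minpoly ℚ b).map (algebraMap ℚ E)).roots =
        ((minpoly ℚ b).map (algebraMap ℚ L)).roots.map (τ : L →+* E) := by
      rw [← h1.roots_map, Polynomial.map_map]
      congr 2
      exact (RingHom.ext fun x => τ.commutes x).symm
    have h3 : β ∈ ((minpoly ℚ b).map (algebraMap ℚ E)).roots := by
      rw [mem_roots_map (minpoly.ne_zero hb)]
      rw [aeval_def] at h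
      exact h
    rw [h2, Multiset.mem_map] at h3
    obtain ⟨b', hb', rfl⟩ := h3
    rw [mem_roots_map (minpoly.ne_zero hb)] at hb'
    obtain ⟨σ, hσ⟩ := minpoly.exists_algEquiv_of_root' (K := ℚ) (x := b') (y := b)
      hb.isAlgebraic (by rw [aeval_def]; exact hb')
    exact ⟨σ, by rw [hσ]; rfl⟩
  · rintro ⟨σ, rfl⟩
    refine ⟨minpoly.ne_zero hb, ?_⟩
    have h1 := Polynomial.aeval_algHom_apply (τ.comp (σ : L →ₐ[ℚ] L)) b (minpoly ℚ b)
    rw [minpoly.aeval, map_zero] at h1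
    exact h1

/-- The orbit of an element under a group of automorphisms. -/
def orb (K : Subgroup (L ≃ₐ[ℚ] L)) (b : L) : Finset L :=
  (Set.toFinite (Set.range fun k : K => (k : L ≃ₐ[ℚ] L) b)).toFinset

theorem mem_orb (K : Subgroup (L ≃ₐ[ℚ] L)) (b c : L) : c ∈ orb K b ↔ ∃ k ∈ K, k b = c := by
  unfold orb
  rw [Set.Finite.mem_toFinset, Set.mem_range]
  constructor
  · rintro ⟨k, hk⟩
    exact ⟨k, k.2, hk⟩
  · rintro ⟨k, hk, h⟩
    exact ⟨⟨k, hk⟩, h⟩

theorem card_orb_pos (K : Subgroup (L ≃ₐ[ℚ] L)) (b : L) : 0 < (orb K b).card :=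
  Finset.card_pos.2 ⟨b, (mem_orb K b b).2 ⟨1, K.one_mem, rfl⟩⟩

theorem card_orb_le (K : Subgroup (L ≃ₐ[ℚ] L)) (b : L) :
    (orb K b).card ≤ (minpoly ℚ b).natDegree := by
  classical
  have hb : IsIntegral ℚ b := Algebra.IsIntegral.isIntegral b
  have h1 : orb K b ⊆ ((minpoly ℚ b).aroots L).toFinset := by
    intro c hc
    obtain ⟨k, -, rfl⟩ := (mem_orb K b c).1 hc
    rw [Multiset.mem_toFinset]
    exact (mem_aroots_iff (AlgHom.id ℚ L) b (k b)).2 ⟨k, rfl⟩
  refine (Finset.card_le_card h1).trans ((Multiset.toFinset_card_le _).trans ?_)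
  refine (card_roots' _).trans ?_
  exact natDegree_map_le

theorem avg_orb (K : Subgroup (L ≃ₐ[ℚ] L)) (b : L) (f : L → ℝ) (σ : L ≃ₐ[ℚ] L) :
    avg K (fun τ => f (τ b)) σ = (∑ c ∈ orb K b, f (σ c)) / (orb K b).card := by
  classical
  have _ : Fintype K := Fintype.ofFinite K
  let h : K → L := fun k => (k : L ≃ₐ[ℚ] L) b
  have himg : orb K b = Finset.univ.image h := by
    ext c
    rw [mem_orb, Finset.mem_image]
    constructor
    · rintro ⟨k, hk, h⟩
      exact ⟨⟨k, hk⟩, Finset.mem_univ _, h⟩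
    · rintro ⟨k, -, h⟩
      exact ⟨k, k.2, h⟩
  let e : ℕ := (Finset.univ.filter fun k : K => h k = b).card
  have he : ∀ c ∈ Finset.univ.image h, (Finset.univ.filter fun k : K => h k = c).card = e := by
    intro c hc
    obtain ⟨k₀, -, rfl⟩ := Finset.mem_image.1 hc
    refine Finset.card_equiv (Equiv.mulLeft k₀⁻¹) fun k => ?_
    simp only [Finset.mem_filter, Finset.mem_univ, true_and]
    change (k : L ≃ₐ[ℚ] L) b = (k₀ : L ≃ₐ[ℚ] L) b ↔ ((k₀⁻¹ * k : K) : L ≃ₐ[ℚ] L) b = b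
    rw [Subgroup.coe_mul, Subgroup.coe_inv, AlgEquiv.mul_apply]
    constructor
    · intro h1
      rw [h1, ← AlgEquiv.mul_apply, inv_mul_cancel]
      rfl
    · intro h1
      have h2 := congrArg (k₀ : L ≃ₐ[ℚ] L) h1
      rw [← AlgEquiv.mul_apply, mul_inv_cancel] at h2
      exact h2
  have he0 : 0 < e := Finset.card_pos.2 ⟨1, by
    simp only [Finset.mem_filter, Finset.mem_univ, true_and]
    rfl⟩
  have h1 : ∑ k : K, f ((σ * k : L ≃ₐ[ℚ] L) b) = e * ∑ c ∈ orb K b, f (σ c) := by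
    have h2 := Finset.sum_comp (s := (Finset.univ : Finset K)) (fun c => f (σ c)) h
    change ∑ k : K, f (σ (h k)) = _
    rw [h2, himg, Finset.mul_sum]
    refine Finset.sum_congr rfl fun c hc => ?_
    rw [he c hc, nsmul_eq_mul]
  have h2 : Fintype.card K = (orb K b).card * e := by
    have h3 := Finset.card_eq_sum_card_image h (Finset.univ : Finset K)
    rw [Finset.card_univ] at h3
    rw [h3, Finset.sum_congr rfl he, Finset.sum_const, smul_eq_mul, himg]
  rw [avg_apply, h1, h2]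
  push_cast
  have h3 : (e : ℝ) ≠ 0 := Nat.cast_ne_zero.2 he0.ne'
  have h4 : ((orb K b).card : ℝ) ≠ 0 := Nat.cast_ne_zero.2 (card_orb_pos K b).ne'
  field_simp

/-- The power of the product over the orbit. -/
def rho (d : ℕ) (K : Subgroup (L ≃ₐ[ℚ] L)) (b : L) : L :=
  (∏ c ∈ orb K b, c) ^ (2 * d.factorial / (orb K b).card)

theorem rho_degree (d : ℕ) (K : Subgroup (L ≃ₐ[ℚ] L)) [hK : K.Normal] (b : L) :
    (minpoly ℚ (rho d K b)).natDegree ≤ (minpoly ℚ b).natDegree := by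
  have hfix : ∀ g : L ≃ₐ[ℚ] L, g b = b → g (rho d K b) = rho d K b := by
    intro g hg
    have hmem : ∀ g : L ≃ₐ[ℚ] L, g b = b → ∀ c ∈ orb K b, g c ∈ orb K b := by
      intro g hg c hc
      obtain ⟨k, hk, rfl⟩ := (mem_orb K b c).1 hc
      refine (mem_orb K b _).2 ⟨g * k * g⁻¹, hK.conj_mem k hk g, ?_⟩
      have h1 : g⁻¹ b = b := by
        have h2 := congrArg (g⁻¹ : L ≃ₐ[ℚ] L) hg
        rw [← AlgEquiv.mul_apply, inv_mul_cancel] at h2
        exact h2.symm
      rw [AlgEquiv.mul_apply, AlgEquiv.mul_apply, h1]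
    have hg' : g⁻¹ b = b := by
      have h2 := congrArg (g⁻¹ : L ≃ₐ[ℚ] L) hg
      rw [← AlgEquiv.mul_apply, inv_mul_cancel] at h2
      exact h2.symm
    unfold rho
    rw [map_pow, map_prod]
    congr 1
    refine Finset.prod_equiv g.toEquiv (fun c => ⟨hmem g hg c, fun h => ?_⟩) fun c _ => rfl
    have h1 := hmem g⁻¹ hg' _ h
    change g⁻¹ (g c) ∈ _ at h1
    rwa [← AlgEquiv.mul_apply, inv_mul_cancel] at h1
  have h1 : rho d K b ∈ IntermediateField.adjoin ℚ {b} := by
    rw [← IsGalois.fixedField_fixingSubgroup (IntermediateField.adjoin ℚ {b})]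
    rintro ⟨g, hg⟩
    apply hfix
    exact (IntermediateField.mem_fixingSubgroup_iff _ _).1 hg b
      (IntermediateField.mem_adjoin_simple_self ℚ b)
  have hb : IsIntegral ℚ b := Algebra.IsIntegral.isIntegral b
  have h2 : (minpoly ℚ (⟨rho d K b, h1⟩ : IntermediateField.adjoin ℚ {b})).natDegree ≤
      Module.finrank ℚ (IntermediateField.adjoin ℚ {b}) := minpoly.natDegree_le _
  rw [IntermediateField.adjoin.finrank hb] at h2
  have h3 : minpoly ℚ (⟨rho d K b, h1⟩ : IntermediateField.adjoin ℚ {b}) =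
      minpoly ℚ (rho d K b) :=
    (minpoly.algHom_eq (IntermediateField.val _) Subtype.val_injective _).symm
  rwa [h3] at h2

end

end Pool.Agent.Y137.BG
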