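import Mathlib
import Pool.Agent.Y137.BG.Orb

/-!
# Weil numbers in a Galois extension
-/

set_option linter.unusedSectionVars false

namespace Pool.Agent.Y137.BG

open Finsupp Polynomial Pool.Agent.H485R3.Exact Pool.Agent.H485R3 Pool.Agent.H925R2

noncomputable section

variable {p : ℕ} [Fact p.Prime] {L : Type} [Field L] [NumberField L] [IsGalois ℚ L]
  (ι : L →ₐ[ℚ] ℂ) (jp : L →ₐ[ℚ] PadicAlgCl p)

/-- The element `z` is an algebraic integer all of whose conjugates have absolute value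
`Q ^ (w / 2)`. -/
structure Good (Q w : ℕ) (z : L) : Prop where
  int : IsIntegral ℤ z
  abs : ∀ σ : L ≃ₐ[ℚ] L, ‖ι (σ z)‖ ^ 2 = (Q : ℝ) ^ w

variable {ι}

theorem Good.mul {Q w w' : ℕ} {z z' : L} (h : Good ι Q w z) (h' : Good ι Q w' z') :
    Good ι Q (w + w') (z * z') where
  int := h.int.mul h'.int
  abs σ := by
    rw [map_mul, map_mul, norm_mul, mul_pow, h.abs, h'.abs, pow_add]

theorem Good.one (Q : ℕ) : Good ι Q 0 (1 : L) where
  int := isIntegral_one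
  abs σ := by simp

theorem Good.map {Q w : ℕ} {z : L} (h : Good ι Q w z) (τ : L ≃ₐ[ℚ] L) : Good ι Q w (τ z) where
  int := h.int.map ((τ : L →+* L).toIntAlgHom)
  abs σ := h.abs (σ * τ)

theorem Good.conj {Q w : ℕ} {z : L} (h : Good ι Q w z) {c : L ≃ₐ[ℚ] L}
    (hc : ∀ z, starRingEnd ℂ (ι z) = ι (c z)) : z * c z = (Q : L) ^ w := by
  apply (ι : L →+* ℂ).injective
  change ι _ = ι _
  rw [map_mul, ← hc, Complex.mul_conj, Complex.normSq_eq_norm_sq]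
  have h1 := h.abs 1
  change ‖ι z‖ ^ 2 = _ at h1
  rw [h1]
  simp

theorem Good.ne_zero {Q w : ℕ} (hQ : 0 < Q) {z : L} (h : Good ι Q w z) : z ≠ 0 := by
  rintro rfl
  have h1 := h.abs 1
  rw [map_zero, map_zero, norm_zero] at h1
  have h2 : (0 : ℝ) < (Q : ℝ) ^ w := pow_pos (Nat.cast_pos.2 hQ) w
  rw [← h1] at h2
  norm_num at h2

/-- Two Weil numbers with the same `p`-adic absolute values at all places: the product of one with
the complex conjugate of the other is a power of `Q` up to a root of unity. -/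
theorem tate_of_norm {b : ℕ} (hb : 0 < b) {w w' : ℕ} {x y : L} (hx : Good ι (p ^ b) w x)
    (hy : Good ι (p ^ b) w' y) (h : ∀ σ : L ≃ₐ[ℚ] L, ‖jp (σ x)‖ = ‖jp (σ y)‖) :
    ∃ N : ℕ, 0 < N ∧ (ι x * (starRingEnd ℂ) (ι y)) ^ N = ((p ^ b : ℕ) : ℂ) ^ (w * N) := by
  obtain ⟨c, hc⟩ := exists_conj ι
  have hp1 : 1 < p := (Fact.out : p.Prime).one_lt
  have hQ : 0 < p ^ b := pow_pos (zero_lt_one.trans hp1) b
  have hx' := hx.conj hc
  have hy' := hy.conj hc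
  have hnQ : ‖((p ^ b : ℕ) : PadicAlgCl p)‖ = ((p : ℝ)⁻¹) ^ b := by
    rw [Nat.cast_pow, norm_pow, norm_p]
  have hw : w = w' := by
    have h1 : ‖jp (x * c x)‖ = ‖jp (y * c y)‖ := by
      rw [map_mul, map_mul, norm_mul, norm_mul]
      have h2 := h 1
      change ‖jp x‖ = ‖jp y‖ at h2
      rw [h2, h c]
    rw [hx', hy', map_pow, map_pow, norm_pow, norm_pow, map_natCast, hnQ, ← pow_mul,
      ← pow_mul] at h1
    have h3 : (0 : ℝ) < (p : ℝ)⁻¹ := inv_pos.2 (Nat.cast_pos.2 (zero_lt_one.trans hp1))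
    have h4 : (p : ℝ)⁻¹ ≠ 1 := by
      intro h5
      rw [inv_eq_one] at h5
      exact hp1.ne' (by exact_mod_cast h5)
    have h5 := pow_right_injective₀ h3 h4 h1
    exact Nat.eq_of_mul_eq_mul_left hb h5
  subst hw
  have hQL : ((p ^ b : ℕ) : L) ^ w ≠ 0 := pow_ne_zero _ (Nat.cast_ne_zero.2 hQ.ne')
  have hy0 : y ≠ 0 := hy.ne_zero hQ
  set ζ : L := x * c y / ((p ^ b : ℕ) : L) ^ w with hζ
  obtain ⟨N, hN, hN1⟩ := root_of_unity ζ (by
    intro l _ e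
    have he : ‖e ζ‖ = ‖e x‖ * ‖e (c y)‖ / ‖((p ^ b : ℕ) : PadicAlgCl l)‖ ^ w := by
      rw [hζ, map_div₀, map_mul, map_pow, map_natCast, norm_div, norm_mul, norm_pow]
    by_cases hl : l = p
    · subst hl
      obtain ⟨σ, hσ⟩ := exists_gal jp e
      have h1 : ‖e x‖ * ‖e (c y)‖ = ‖((l ^ b : ℕ) : PadicAlgCl l)‖ ^ w := by
        rw [hσ, hσ, h σ, ← norm_mul, ← map_mul, ← map_mul, hy', map_pow, map_natCast,
          map_pow, map_natCast, norm_pow]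
      rw [he, h1, div_self]
      rw [hnQ]
      have h3 : (0 : ℝ) < (l : ℝ)⁻¹ := inv_pos.2 (Nat.cast_pos.2 (zero_lt_one.trans hp1))
      exact (pow_pos (pow_pos h3 _) _).ne'
    · have h1 : ‖e x‖ ≤ 1 := norm_le_one_of_isIntegral l _ (hx.int.map (e : L →+* PadicAlgCl l).toIntAlgHom)
      have h2 : ‖e (c y)‖ ≤ 1 := norm_le_one_of_isIntegral l _
        ((hy.map c).int.map (e : L →+* PadicAlgCl l).toIntAlgHom)
      have h3 : ‖((p ^ b : ℕ) : PadicAlgCl l)‖ = 1 := by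
        have h4 : (p : PadicAlgCl l) = algebraMap ℚ_[l] (PadicAlgCl l) (p : ℚ_[l]) := by simp
        rw [Nat.cast_pow, norm_pow, h4, PadicAlgCl.norm_extends]
        have h5 : ‖(p : ℚ_[l])‖ = 1 := by
          rw [Padic.norm_natCast_eq_one_iff]
          exact (Nat.coprime_primes (Fact.out : l.Prime) (Fact.out : p.Prime)).2 hl
        rw [h5, one_pow]
      rw [he, h3, one_pow, div_one]
      exact mul_le_one₀ h1 (norm_nonneg _) h2) (by
    intro φ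
    obtain ⟨σ, hσ⟩ := exists_gal ι φ
    have h1 : ‖φ ζ‖ ^ 2 = 1 := by
      rw [hζ, map_div₀, map_mul, map_pow, map_natCast, norm_div, norm_mul, norm_pow, hσ, hσ,
        div_pow, mul_pow, hx.abs, (hy.map c).abs, Complex.norm_natCast, ← pow_mul, mul_comm w 2,
        ← pow_add, ← two_mul, div_self]
      exact (pow_pos (Nat.cast_pos.2 hQ) _).ne'
    have h2 : (0 : ℝ) ≤ ‖φ ζ‖ := norm_nonneg _
    nlinarith)
  refine ⟨N, hN, ?_⟩
  rw [hc, ← map_mul, ← map_pow]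
  have h1 : x * c y = ζ * ((p ^ b : ℕ) : L) ^ w := by
    rw [hζ, div_mul_cancel₀ _ hQL]
  rw [h1, mul_pow, hN1, one_mul, ← pow_mul, map_pow, map_natCast]

theorem member_of {a : ℕ} {W : Finset ℕ} {d m : ℕ} {z : L} {w : ℕ} (hw : w ∈ W) (hz : Good ι (p ^ a) w z)
    (hd : (minpoly ℚ z).natDegree ≤ d)
    (hs : ∀ σ : L ≃ₐ[ℚ] L, ∃ k : ℕ, ‖jp (σ z)‖ ^ m = ((p : ℝ)⁻¹) ^ (a * k)) :
    IsMember p a W d m (ι z) where
  weil := by
    refine ⟨hz.int.map ((ι : L →+* ℂ).toIntAlgHom), w, hw, fun β hβ => ?_⟩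
    obtain ⟨σ, rfl⟩ := (mem_aroots_iff ι z β).1 hβ
    exact hz.abs σ
  degree := by
    rw [minpoly.algHom_eq ι ι.injective]
    exact hd
  slopes := by
    intro x hx
    have h1 : minpoly ℚ (ι z) = minpoly ℚ (jp z) := by
      rw [minpoly.algHom_eq ι ι.injective, minpoly.algHom_eq jp jp.injective]
    rw [h1] at hx
    obtain ⟨σ, rfl⟩ := (mem_aroots_iff jp z x).1 hx
    exact hs σ

theorem good_of_member {a : ℕ} {W : Finset ℕ} {d m : ℕ} {z : L}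
    (h : IsMember p a W d m (ι z)) : (∃ w ∈ W, Good ι (p ^ a) w z) ∧ (minpoly ℚ z).natDegree ≤ d ∧
    ∀ σ : L ≃ₐ[ℚ] L, ∃ k : ℕ, ‖jp (σ z)‖ ^ m = ((p : ℝ)⁻¹) ^ (a * k) := by
  obtain ⟨⟨h1, w, hw, h2⟩, h3, h4⟩ := h
  refine ⟨⟨w, hw, ?_, fun σ => h2 _ ((mem_aroots_iff ι z _).2 ⟨σ, rfl⟩)⟩, ?_, fun σ => ?_⟩
  · exact (isIntegral_algHom_iff ((ι : L →+* ℂ).toIntAlgHom) (ι : L →+* ℂ).injective).1 h1
  · rw [minpoly.algHom_eq ι ι.injective] at h3
    exact h3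
  · have h5 : minpoly ℚ (ι z) = minpoly ℚ (jp z) := by
      rw [minpoly.algHom_eq ι ι.injective, minpoly.algHom_eq jp jp.injective]
    apply h4
    rw [h5]
    exact (mem_aroots_iff jp z _).2 ⟨σ, rfl⟩

theorem member_conj {a : ℕ} {W : Finset ℕ} {d m : ℕ} {α : ℂ} (h : IsMember p a W d m α) :
    IsMember p a W d m ((starRingEnd ℂ) α) := by
  have h1 : minpoly ℚ ((starRingEnd ℂ) α) = minpoly ℚ α :=
    minpoly.algEquiv_eq (Complex.conjAe.restrictScalars ℚ) α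
  refine ⟨⟨h.weil.1.map ((starRingEnd ℂ).toIntAlgHom), ?_⟩, ?_, ?_⟩
  · rw [h1]
    exact h.weil.2
  · rw [h1]
    exact h.degree
  · unfold SlopesIn
    rw [h1]
    exact h.slopes

end

end Pool.Agent.Y137.BG
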