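import Mathlib
import Pool.Agent.Y137.BG.Weil
import Pool.Agent.Y137.BG.Asm

/-!
# The letters: orbit products of Weil numbers
-/

set_option linter.unusedSectionVars false

namespace Pool.Agent.Y137.BG

open Polynomial Pool.Agent.H485R3.Exact Pool.Agent.H485R3 Pool.Agent.H925R2

noncomputable section

variable {p : ℕ} [Fact p.Prime] {L : Type} [Field L] [NumberField L] [IsGalois ℚ L]
  {ι : L →ₐ[ℚ] ℂ} (jp : L →ₐ[ℚ] PadicAlgCl p)

theorem Good.pow {Q w : ℕ} {z : L} (h : Good ι Q w z) (n : ℕ) : Good ι Q (n * w) (z ^ n) := by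
  induction n with
  | zero =>
    rw [zero_mul, pow_zero]
    exact Good.one Q
  | succ n ih =>
    rw [Nat.succ_mul, pow_succ]
    exact ih.mul h

theorem Good.prod {Q w : ℕ} (S : Finset L) (h : ∀ z ∈ S, Good ι Q w z) :
    Good ι Q (S.card * w) (∏ z ∈ S, z) := by
  classical
  induction S using Finset.induction_on with
  | empty =>
    rw [Finset.card_empty, zero_mul, Finset.prod_empty]
    exact Good.one Q
  | insert z S hz ih =>
    rw [Finset.prod_insert hz, Finset.card_insert_of_notMem hz, Nat.succ_mul, add_comm]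
    exact (h z (Finset.mem_insert_self z S)).mul
      (ih fun y hy => h y (Finset.mem_insert_of_mem hy))

theorem log_norm_p : Real.log ‖(p : PadicAlgCl p)‖ = -Real.log p := by
  rw [norm_p, Real.log_inv]

/-- The logarithms of the `p`-adic absolute values. The letter `none` stands for the square root of
`p ^ a`. -/
def Phi (ι : L →ₐ[ℚ] ℂ) (a : ℕ) (W : Finset ℕ) (d m : ℕ) (x : Option {b : L // IsMember p a W d m (ι b)})
    (σ : L ≃ₐ[ℚ] L) : ℝ :=
  match x with
  | some b => Real.log ‖jp (σ b.1)‖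
  | none => -((a : ℝ) / 2 * Real.log p)

/-- The number attached to a letter. -/
def rhoT (ι : L →ₐ[ℚ] ℂ) (a : ℕ) (W : Finset ℕ) (d m : ℕ) {B : ℕ}
    (t : Option {b : L // IsMember p a W d m (ι b)} × NS B (L ≃ₐ[ℚ] L)) : L :=
  match t.1 with
  | some b => rho d t.2.1 b.1
  | none => (p : L) ^ (a * d.factorial)

theorem rhoT_facts {a : ℕ} {W : Finset ℕ} {d m B : ℕ} (hW : 1 ∈ W) (hd : 0 < d)
    (t : Option {b : L // IsMember p a W d m (ι b)} × NS B (L ≃ₐ[ℚ] L)) :
    (∃ w ∈ W, Good ι (p ^ (a * (2 * d.factorial))) w (rhoT ι a W d m t)) ∧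
    (minpoly ℚ (rhoT ι a W d m t)).natDegree ≤ d ∧
    (∀ σ : L ≃ₐ[ℚ] L, ∃ k : ℕ, ‖jp (σ (rhoT ι a W d m t))‖ ^ (2 * m * d.factorial) =
      ((p : ℝ)⁻¹) ^ (a * (2 * d.factorial) * k)) ∧
    ∀ σ : L ≃ₐ[ℚ] L, Real.log ‖jp (σ (rhoT ι a W d m t))‖ =
      2 * d.factorial * vec (Phi jp ι a W d m) t σ := by
  have hpL : (p : L) ≠ 0 := Nat.cast_ne_zero.2 (Fact.out : p.Prime).ne_zero
  obtain ⟨x, K⟩ := t
  have hK := K.2.1
  cases x with
  | some b =>
    obtain ⟨b, hb⟩ := b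
    change (∃ w ∈ W, Good ι (p ^ (a * (2 * d.factorial))) w (rho d K.1 b)) ∧
      (minpoly ℚ (rho d K.1 b)).natDegree ≤ d ∧
      (∀ σ : L ≃ₐ[ℚ] L, ∃ k : ℕ, ‖jp (σ (rho d K.1 b))‖ ^ (2 * m * d.factorial) =
        ((p : ℝ)⁻¹) ^ (a * (2 * d.factorial) * k)) ∧
      ∀ σ : L ≃ₐ[ℚ] L, Real.log ‖jp (σ (rho d K.1 b))‖ =
        2 * d.factorial * avg K.1 (fun τ : L ≃ₐ[ℚ] L => Real.log ‖jp (τ b)‖) σ
    obtain ⟨⟨w, hw, hgood⟩, hdeg, hsl⟩ := good_of_member jp hb
    have hcard : (orb K.1 b).card ≤ d := (card_orb_le K.1 b).trans hdeg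
    have hpos := card_orb_pos K.1 b
    obtain ⟨e, he⟩ : (orb K.1 b).card ∣ 2 * d.factorial :=
      (Nat.dvd_factorial hpos hcard).mul_left 2
    have hrho : rho d K.1 b = (∏ c ∈ orb K.1 b, c) ^ e := by
      unfold rho
      rw [he, Nat.mul_div_cancel_left _ hpos]
    have horb : ∀ c ∈ orb K.1 b, Good ι (p ^ a) w c := by
      intro c hc
      obtain ⟨k, -, rfl⟩ := (mem_orb K.1 b c).1 hc
      exact hgood.map k
    have hQ : 0 < p ^ a := pow_pos (Fact.out : p.Prime).pos a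
    refine ⟨⟨w, hw, ?_⟩, (rho_degree d K.1 b).trans hdeg, fun σ => ?_, fun σ => ?_⟩
    · have h1 := (Good.prod _ horb).pow e
      rw [← hrho] at h1
      refine ⟨h1.int, fun σ => ?_⟩
      rw [h1.abs σ, he]
      push_cast
      rw [← pow_mul, ← pow_mul]
      congr 1
      ring
    · have h1 : ∀ c ∈ orb K.1 b, ∃ k : ℕ, ‖jp (σ c)‖ ^ m = ((p : ℝ)⁻¹) ^ (a * k) := by
        intro c hc
        obtain ⟨g, -, rfl⟩ := (mem_orb K.1 b c).1 hc
        exact hsl (σ * g)
      choose! k hk using h1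
      refine ⟨e * ∑ c ∈ orb K.1 b, k c, ?_⟩
      have h2 : (∏ c ∈ orb K.1 b, ‖jp (σ c)‖) ^ m = ((p : ℝ)⁻¹) ^ (a * ∑ c ∈ orb K.1 b, k c) := by
        rw [← Finset.prod_pow, Finset.prod_congr rfl hk, Finset.prod_pow_eq_pow_sum,
          Finset.mul_sum]
      have h3 : ‖jp (σ (rho d K.1 b))‖ = (∏ c ∈ orb K.1 b, ‖jp (σ c)‖) ^ e := by
        rw [hrho, map_pow, map_pow, map_prod, map_prod, norm_pow, norm_prod]
      rw [h3, ← pow_mul]
      have h4 : e * (2 * m * d.factorial) = m * (e * (2 * d.factorial)) := by ring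
      rw [h4, pow_mul, h2, ← pow_mul]
      congr 1
      ring
    · have h3 : ‖jp (σ (rho d K.1 b))‖ = (∏ c ∈ orb K.1 b, ‖jp (σ c)‖) ^ e := by
        rw [hrho, map_pow, map_pow, map_prod, map_prod, norm_pow, norm_prod]
      rw [h3, Real.log_pow, Real.log_prod fun c hc => norm_ne_zero_iff.2
        ((map_ne_zero jp).2 ((map_ne_zero σ).2 ((horb c hc).ne_zero hQ)))]
      have h4 := avg_orb K.1 b (fun x => Real.log ‖jp x‖) σ
      rw [h4]
      have h5 : ((2 * d.factorial : ℕ) : ℝ) = (orb K.1 b).card * e := by rw [he]; push_cast; rfl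
      push_cast at h5
      rw [h5]
      have h6 : ((orb K.1 b).card : ℝ) ≠ 0 := Nat.cast_ne_zero.2 hpos.ne'
      field_simp
  | none =>
    change (∃ w ∈ W, Good ι (p ^ (a * (2 * d.factorial))) w ((p : L) ^ (a * d.factorial))) ∧
      (minpoly ℚ ((p : L) ^ (a * d.factorial))).natDegree ≤ d ∧
      (∀ σ : L ≃ₐ[ℚ] L, ∃ k : ℕ, ‖jp (σ ((p : L) ^ (a * d.factorial)))‖ ^ (2 * m * d.factorial) =
        ((p : ℝ)⁻¹) ^ (a * (2 * d.factorial) * k)) ∧
      ∀ σ : L ≃ₐ[ℚ] L, Real.log ‖jp (σ ((p : L) ^ (a * d.factorial)))‖ =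
        2 * d.factorial * avg K.1 (fun τ : L ≃ₐ[ℚ] L => -((a : ℝ) / 2 * Real.log p)) σ
    have h1 : ∀ σ : L ≃ₐ[ℚ] L, ‖jp (σ ((p : L) ^ (a * d.factorial)))‖ =
        ((p : ℝ)⁻¹) ^ (a * d.factorial) := by
      intro σ
      rw [map_pow, map_pow, map_natCast, map_natCast, norm_pow, norm_p]
    refine ⟨⟨1, hW, ?_, fun σ => ?_⟩, ?_, fun σ => ⟨m * d.factorial, ?_⟩, fun σ => ?_⟩
    · rw [← Nat.cast_pow]
      exact isIntegral_natCast _
    · rw [map_pow, map_pow, map_natCast, map_natCast, norm_pow, Complex.norm_natCast, pow_one,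
        ← pow_mul]
      push_cast
      congr 1
      ring
    · have h2 : (p : L) ^ (a * d.factorial) = algebraMap ℚ L ((p : ℚ) ^ (a * d.factorial)) := by
        rw [map_pow, map_natCast]
      rw [h2, minpoly.eq_X_sub_C, natDegree_X_sub_C]
      exact hd
    · rw [h1, ← pow_mul]
      congr 1
      ring
    · rw [h1, Real.log_pow, Real.log_inv, avg_of_le]
      · push_cast
        ring
      · intro k _ τ
        rfl

/-- The logarithms are bounded multiples of a fixed number. -/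
theorem vec_bound {a : ℕ} {W : Finset ℕ} {d m B : ℕ} (ha : 0 < a) (hW : 1 ∈ W) (hd : 0 < d) (hm : 0 < m)
    (t : Option {b : L // IsMember p a W d m (ι b)} × NS B (L ≃ₐ[ℚ] L)) (σ : L ≃ₐ[ℚ] L) :
    ∃ z : ℤ, |z| ≤ ((2 * m * d.factorial * W.sup id : ℕ) : ℤ) ∧ vec (Phi jp ι a W d m) t σ =
      (a * Real.log p / (2 * m * d.factorial)) * z := by
  obtain ⟨⟨w, hw, hg⟩, -, h3, h4⟩ := rhoT_facts jp hW hd t
  obtain ⟨k, hk⟩ := h3 σ
  have h5 := h4 σ
  have hp1 : 1 < p := (Fact.out : p.Prime).one_lt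
  have hm0 : 0 < 2 * m * d.factorial := by positivity
  have hQ : 0 < p ^ (a * (2 * d.factorial)) := pow_pos (zero_lt_one.trans hp1) _
  refine ⟨-(k : ℤ), ?_, ?_⟩
  · obtain ⟨c, hc⟩ := exists_conj ι
    have h6 := hg.conj hc
    have h7 : ‖jp (σ (rhoT ι a W d m t))‖ * ‖jp (σ (c (rhoT ι a W d m t)))‖ =
        ((p : ℝ)⁻¹) ^ (a * (2 * d.factorial) * w) := by
      rw [← norm_mul, ← map_mul, ← map_mul, h6, map_pow, map_pow, map_natCast, map_natCast,
        norm_pow, Nat.cast_pow, norm_pow, norm_p, ← pow_mul]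
    have h8 : ‖jp (σ (c (rhoT ι a W d m t)))‖ ≤ 1 := norm_le_one_of_isIntegral p _
      (((hg.map c).map σ).int.map (jp : L →+* PadicAlgCl p).toIntAlgHom)
    have h9 : ((p : ℝ)⁻¹) ^ (a * (2 * d.factorial) * w) ≤ ‖jp (σ (rhoT ι a W d m t))‖ := by
      rw [← h7]
      exact mul_le_of_le_one_right (norm_nonneg _) h8
    have h10 := pow_le_pow_left₀ (pow_nonneg (inv_nonneg.2 (Nat.cast_nonneg p)) _) h9
      (2 * m * d.factorial)
    rw [hk, ← pow_mul] at h10
    have h11 : (0 : ℝ) < (p : ℝ)⁻¹ := inv_pos.2 (Nat.cast_pos.2 (zero_lt_one.trans hp1))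
    have h12 : (p : ℝ)⁻¹ < 1 := inv_lt_one_of_one_lt₀ (by exact_mod_cast hp1)
    rw [pow_le_pow_iff_right_of_lt_one₀ h11 h12] at h10
    have h13 : 0 < a * (2 * d.factorial) := by positivity
    have h14 : k ≤ w * (2 * m * d.factorial) := by
      have h15 : a * (2 * d.factorial) * k ≤
          a * (2 * d.factorial) * (w * (2 * m * d.factorial)) := by
        refine h10.trans (le_of_eq ?_)
        ring
      exact Nat.le_of_mul_le_mul_left h15 h13
    have h15 : k ≤ 2 * m * d.factorial * W.sup id := by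
      refine h14.trans ?_
      rw [mul_comm]
      exact Nat.mul_le_mul_left _ (Finset.le_sup (f := id) hw)
    rw [abs_neg, abs_of_nonneg (Int.natCast_nonneg k)]
    exact_mod_cast h15
  · have h6 := congrArg Real.log hk
    rw [Real.log_pow, Real.log_pow, h5, Real.log_inv] at h6
    push_cast at h6 ⊢
    have h7 : (0 : ℝ) < d.factorial := Nat.cast_pos.2 (Nat.factorial_pos d)
    have h8 : (0 : ℝ) < m := Nat.cast_pos.2 hm
    have h9 : (2 * (d.factorial : ℝ)) * ((2 * m * d.factorial) * vec (Phi jp ι a W d m) t σ) =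
        (2 * (d.factorial : ℝ)) * (-(a * k * Real.log p)) := by
      linear_combination h6
    have h10 := mul_left_cancel₀ (by positivity) h9
    rw [div_mul_eq_mul_div, eq_div_iff (by positivity)]
    linear_combination h10

/-- Products over multisets of letters. -/
theorem prod_facts {a : ℕ} {W : Finset ℕ} {d m B : ℕ} (hW : 1 ∈ W) (hd : 0 < d)
    (A : Multiset (Option {b : L // IsMember p a W d m (ι b)} × NS B (L ≃ₐ[ℚ] L))) :
    (∃ w, Good ι (p ^ (a * (2 * d.factorial))) w (A.map (rhoT ι a W d m)).prod) ∧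
    ∀ σ : L ≃ₐ[ℚ] L, Real.log ‖jp (σ (A.map (rhoT ι a W d m)).prod)‖ =
      2 * d.factorial * (A.map (vec (Phi jp ι a W d m))).sum σ := by
  induction A using Multiset.induction_on with
  | empty =>
    refine ⟨⟨0, ?_⟩, fun σ => ?_⟩
    · rw [Multiset.map_zero, Multiset.prod_zero]
      exact Good.one _
    · simp
  | cons t A ih =>
    obtain ⟨⟨w, hw⟩, h2⟩ := ih
    obtain ⟨⟨w', -, hw'⟩, -, -, h4⟩ := rhoT_facts jp hW hd t
    have hQ : 0 < p ^ (a * (2 * d.factorial)) := pow_pos (Fact.out : p.Prime).pos _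
    refine ⟨⟨w' + w, ?_⟩, fun σ => ?_⟩
    · rw [Multiset.map_cons, Multiset.prod_cons]
      exact hw'.mul hw
    · rw [Multiset.map_cons, Multiset.prod_cons, Multiset.map_cons, Multiset.sum_cons, map_mul,
        map_mul, norm_mul, Real.log_mul, h2, h4, Pi.add_apply]
      · ring
      · exact norm_ne_zero_iff.2 ((map_ne_zero jp).2 ((map_ne_zero σ).2 (hw'.ne_zero hQ)))
      · exact norm_ne_zero_iff.2 ((map_ne_zero jp).2 ((map_ne_zero σ).2 (hw.ne_zero hQ)))

theorem short_of_rel {a : ℕ} {W : Finset ℕ} {d m B N : ℕ} (ha : 0 < a) (hW : 1 ∈ W) (hd : 0 < d)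
    (A A' : Multiset (Option {b : L // IsMember p a W d m (ι b)} × NS B (L ≃ₐ[ℚ] L)))
    (hN : Multiset.card A + Multiset.card A' ≤ N)
    (h : (A.map (vec (Phi jp ι a W d m))).sum = (A'.map (vec (Phi jp ι a W d m))).sum) :
    Short p (a * (2 * d.factorial)) W d (2 * m * d.factorial) N
      (real (fun t => ι (rhoT ι a W d m t)) A A') := by
  have hmem : ∀ t : Option {b : L // IsMember p a W d m (ι b)} × NS B (L ≃ₐ[ℚ] L),
      IsMember p (a * (2 * d.factorial)) W d (2 * m * d.factorial) (ι (rhoT ι a W d m t)) := by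
    intro t
    obtain ⟨⟨w, hw, hg⟩, h2, h3, -⟩ := rhoT_facts jp hW hd t
    exact member_of jp hw hg h2 h3
  refine ⟨?_, ?_, ?_⟩
  · unfold real
    rw [Multiset.card_add, Multiset.card_map, Multiset.card_map]
    exact hN
  · intro α hα
    unfold real at hα
    rw [Multiset.mem_add, Multiset.mem_map, Multiset.mem_map] at hα
    rcases hα with ⟨t, -, rfl⟩ | ⟨t, -, rfl⟩
    · exact hmem t
    · exact member_conj (hmem t)
  · obtain ⟨⟨w, hw⟩, h1⟩ := prod_facts jp hW hd A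
    obtain ⟨⟨w', hw'⟩, h2⟩ := prod_facts jp hW hd A'
    have hQ : 0 < p ^ (a * (2 * d.factorial)) := pow_pos (Fact.out : p.Prime).pos _
    obtain ⟨N, hN, h3⟩ := tate_of_norm jp (b := a * (2 * d.factorial)) (by positivity) hw hw'
      (fun σ => by
        have h4 := h1 σ
        rw [h, ← h2 σ] at h4
        refine Real.log_injOn_pos ?_ ?_ h4
        · exact norm_pos_iff.2 ((map_ne_zero jp).2 ((map_ne_zero σ).2 (hw.ne_zero hQ)))
        · exact norm_pos_iff.2 ((map_ne_zero jp).2 ((map_ne_zero σ).2 (hw'.ne_zero hQ))))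
    refine ⟨w, N, hN, ?_⟩
    rw [← h3]
    congr 1
    unfold real
    rw [Multiset.prod_add, map_multiset_prod, map_multiset_prod, map_multiset_prod,
      Multiset.map_map, Multiset.map_map, Multiset.map_map]
    rfl

end

end Pool.Agent.Y137.BG
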