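import Mathlib
import Pool.Agent.Y137.MV.Criteria
import Pool.Agent.Y137.MV.Final
import Pool.Agent.Y137.BG.Letters

/-!
# Bounded generation
-/

set_option linter.unusedSectionVars false

namespace Pool.Agent.Y137.BG

open Polynomial Pool.Agent.H485R3.Exact Pool.Agent.H485R3 Pool.Agent.H925R2

noncomputable section

section core

variable {G : Type} [Group G] [Finite G]

/-- The kernel of the action on a coset space has index at most `d!`. -/
theorem index_core (H : Subgroup G) {d : ℕ} (hH : H.index ≤ d) :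
    H.normalCore.index ≤ d.factorial := by
  classical
  rw [Subgroup.normalCore_eq_ker, Subgroup.index_ker]
  have h1 : Nat.card (MulAction.toPermHom G (G ⧸ H)).range ≤
      Nat.card (Equiv.Perm (G ⧸ H)) :=
    Nat.card_le_card_of_injective _ Subtype.val_injective
  refine h1.trans ?_
  rw [Nat.card_perm]
  exact Nat.factorial_le hH

end core

variable {p : ℕ} [Fact p.Prime] {L : Type} [Field L] [NumberField L] [IsGalois ℚ L]
  {ι : L →ₐ[ℚ] ℂ} (jp : L →ₐ[ℚ] PadicAlgCl p)

/-- The pointwise stabilizer of the conjugates of `b`. -/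
def core (d : ℕ) (b : L) (hb : (minpoly ℚ b).natDegree ≤ d) : NS d.factorial (L ≃ₐ[ℚ] L) :=
  ⟨(MulAction.stabilizer (L ≃ₐ[ℚ] L) b).normalCore, inferInstance, by
    refine index_core _ ?_
    rw [MulAction.index_stabilizer]
    have h1 : MulAction.orbit (L ≃ₐ[ℚ] L) b = (orb (⊤ : Subgroup (L ≃ₐ[ℚ] L)) b : Set L) := by
      ext c
      rw [Finset.mem_coe, mem_orb]
      constructor
      · rintro ⟨g, rfl⟩
        exact ⟨g, Subgroup.mem_top g, rfl⟩
      · rintro ⟨g, -, rfl⟩
        exact ⟨g, rfl⟩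
    rw [h1, Set.ncard_coe_finset]
    exact (card_orb_le _ b).trans hb⟩

theorem core_fix (d : ℕ) (b : L) (hb : (minpoly ℚ b).natDegree ≤ d) (k : L ≃ₐ[ℚ] L)
    (hk : k ∈ (core d b hb).1) : k b = b :=
  MulAction.mem_stabilizer_iff.1 (Subgroup.normalCore_le _ hk)

theorem rho_core (d : ℕ) (b : L) (hb : (minpoly ℚ b).natDegree ≤ d) :
    rho d (core d b hb).1 b = b ^ (2 * d.factorial) := by
  have h1 : orb (core d b hb).1 b = {b} := by
    ext c
    rw [mem_orb, Finset.mem_singleton]
    constructor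
    · rintro ⟨k, hk, rfl⟩
      exact core_fix d b hb k hk
    · rintro rfl
      exact ⟨1, Subgroup.one_mem _, rfl⟩
  unfold rho
  rw [h1, Finset.prod_singleton, Finset.card_singleton, Nat.div_one]

theorem cancel_pairs (P : Multiset ℂ → Prop) (z : ℂ) (hz : (starRingEnd ℂ) z = z) (M : ℕ) :
    ∀ s : Multiset ℂ, Generated P (s + Multiset.replicate (2 * M) z) → Generated P s := by
  induction M with
  | zero =>
    intro s h
    simpa using h
  | succ M ih =>
    intro s h
    apply ih
    apply Generated.cancel z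
    rw [hz]
    have h1 : z ::ₘ z ::ₘ (s + Multiset.replicate (2 * M) z) =
        s + Multiset.replicate (2 * (M + 1)) z := by
      rw [show 2 * (M + 1) = 2 * M + 1 + 1 by ring, Multiset.replicate_succ,
        Multiset.replicate_succ, Multiset.add_cons, Multiset.add_cons]
    rw [h1]
    exact h

/-- All the elements of a multiset of algebraic numbers lie in one Galois number field. -/
theorem exists_field (s : Multiset ℂ) (hs : ∀ α ∈ s, IsIntegral ℤ α) :
    ∃ (L : IntermediateField ℚ (AlgebraicClosure ℚ)) (_ : NumberField L) (_ : IsGalois ℚ L)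
      (j : L →ₐ[ℚ] ℂ), ∀ α ∈ s, ∃ β : L, j β = α := by
  let f : ℚ[X] := (s.map fun α => minpoly ℚ α).prod
  have hint : ∀ α ∈ s, IsIntegral ℚ α := fun α hα => (hs α hα).tower_top
  have hf : f ≠ 0 := by
    intro h
    have h1 := Multiset.prod_eq_zero_iff.1 h
    obtain ⟨α, hα, h2⟩ := Multiset.mem_map.1 h1
    exact minpoly.ne_zero (hint α hα) h2
  obtain ⟨L, h1, h2, j, -, h3⟩ := MV.exists_galois_roots (fun _ : Unit => ℚ) f hf
  refine ⟨L, h1, h2, RingHom.equivRatAlgHom L ℂ j, fun α hα => ?_⟩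
  obtain ⟨β, hβ⟩ := h3 α (by
    obtain ⟨g, hg⟩ : minpoly ℚ α ∣ f := Multiset.dvd_prod (Multiset.mem_map_of_mem _ hα)
    rw [hg, map_mul, minpoly.aeval, zero_mul])
  exact ⟨β, hβ⟩

/-- **Bounded generation.** -/
theorem main (W : Finset ℕ) (d m : ℕ) (hW : 1 ∈ W) (hd : 0 < d) (hm : 0 < m) :
    ∃ N : ℕ, ∀ (p : ℕ) [Fact p.Prime] (a : ℕ), 0 < a → ∀ s : Multiset ℂ,
      (∀ α ∈ s, IsMember p a W d m α) → IsTate (p ^ a) s →
        Generated (Short p (a * (2 * d.factorial)) W d (2 * m * d.factorial) N)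
          (s.map fun α => α ^ (2 * d.factorial)) := by
  classical
  obtain ⟨N₀, hN₀⟩ := main_rel d.factorial (2 * m * d.factorial * W.sup id)
  refine ⟨max 2 N₀, fun p _ a ha s hs hT => ?_⟩
  obtain ⟨L, _, _, ι, hι⟩ := exists_field s fun α hα => (hs α hα).weil.1
  let jp : L →ₐ[ℚ] PadicAlgCl p := IsAlgClosed.lift
  have hp1 : 1 < p := (Fact.out : p.Prime).one_lt
  choose β hβ using hι
  have hβm : ∀ α (hα : α ∈ s), IsMember p a W d m (ι (β α hα)) := by
    intro α hα
    rw [hβ]
    exact hs α hα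
  have hβd : ∀ α (hα : α ∈ s), (minpoly ℚ (β α hα)).natDegree ≤ d := fun α hα =>
    (good_of_member jp (hβm α hα)).2.1
  let T := Option {b : L // IsMember p a W d m (ι b)} × NS d.factorial (L ≃ₐ[ℚ] L)
  let A : Multiset T := s.attach.map fun α =>
    (some ⟨β α.1 α.2, hβm α.1 α.2⟩, core d (β α.1 α.2) (hβd α.1 α.2))
  obtain ⟨M, R, hR, hMR⟩ := hT
  let K₀ : NS d.factorial (L ≃ₐ[ℚ] L) := ⟨⊤, inferInstance, by
    rw [Subgroup.index_top]
    exact Nat.factorial_pos d⟩
  let A' : Multiset T := Multiset.replicate (2 * M) (none, K₀)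
  have hu : (a * Real.log p / (2 * m * d.factorial) : ℝ) ≠ 0 := by
    have h1 : 0 < Real.log p := Real.log_pos (by exact_mod_cast hp1)
    have h2 : (0 : ℝ) < a := Nat.cast_pos.2 ha
    have h3 : (0 : ℝ) < m := Nat.cast_pos.2 hm
    have h4 : (0 : ℝ) < d.factorial := Nat.cast_pos.2 (Nat.factorial_pos d)
    positivity
  have hz : ((s.attach.map fun α => β α.1 α.2).prod) ^ R = (p : L) ^ (a * (M * R)) := by
    apply (ι : L →+* ℂ).injective
    change ι _ = ι _
    rw [map_pow, map_multiset_prod, Multiset.map_map, map_pow, map_natCast]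
    have h1 : (s.attach.map (ι ∘ fun α => β α.1 α.2)) = s := by
      have h2 : (ι ∘ fun α : {x // x ∈ s} => β α.1 α.2) = fun α => α.1 := by
        funext α
        exact hβ α.1 α.2
      rw [h2]
      exact Multiset.attach_map_val s
    rw [h1, hMR]
    push_cast
    rw [← pow_mul]
  have hQ : 0 < p ^ a := pow_pos (zero_lt_one.trans hp1) a
  have hβ0 : ∀ α (hα : α ∈ s), β α hα ≠ 0 := by
    intro α hα
    obtain ⟨⟨w, -, hg⟩, -⟩ := good_of_member jp (hβm α hα)
    exact hg.ne_zero hQ
  have hrel : (A.map (vec (Phi jp ι a W d m))).sum = (A'.map (vec (Phi jp ι a W d m))).sum := by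
    funext σ
    have h1 : (A.map (vec (Phi jp ι a W d m))).sum σ =
        (s.attach.map fun α => Real.log ‖jp (σ (β α.1 α.2))‖).sum := by
      have h2 : A.map (vec (Phi jp ι a W d m)) =
          s.attach.map fun α => (fun τ : L ≃ₐ[ℚ] L => Real.log ‖jp (τ (β α.1 α.2))‖) := by
        rw [Multiset.map_map]
        refine Multiset.map_congr rfl fun α _ => ?_
        change avg (core d (β α.1 α.2) (hβd α.1 α.2)).1
          (fun τ : L ≃ₐ[ℚ] L => Real.log ‖jp (τ (β α.1 α.2))‖) = _
        refine avg_of_le _ _ fun k hk τ => ?_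
        change Real.log ‖jp ((τ * k) (β α.1 α.2))‖ = _
        rw [AlgEquiv.mul_apply, core_fix _ _ _ k hk]
      rw [h2]
      have h3 := map_multiset_sum (Pi.evalAddMonoidHom (fun _ : L ≃ₐ[ℚ] L => ℝ) σ)
        (s.attach.map fun α => (fun τ : L ≃ₐ[ℚ] L => Real.log ‖jp (τ (β α.1 α.2))‖))
      rw [Multiset.map_map] at h3
      exact h3
    have h2 : (A'.map (vec (Phi jp ι a W d m))).sum σ = -(a * M * Real.log p) := by
      rw [Multiset.map_replicate, Multiset.sum_replicate]
      have h3 : vec (Phi jp ι a W d m) ((none, K₀) : T) =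
          fun _ : L ≃ₐ[ℚ] L => -((a : ℝ) / 2 * Real.log p) :=
        avg_of_le _ _ fun k _ τ => rfl
      rw [h3, Pi.smul_apply, nsmul_eq_mul]
      push_cast
      ring
    rw [h1, h2]
    have h3 : ∀ S : Multiset {x // x ∈ s}, Real.log ‖jp (σ ((S.map fun α => β α.1 α.2).prod))‖ =
        (S.map fun α => Real.log ‖jp (σ (β α.1 α.2))‖).sum ∧
        (S.map fun α => β α.1 α.2).prod ≠ 0 := by
      intro S
      induction S using Multiset.induction_on with
      | empty => simp
      | cons α S ih =>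
        rw [Multiset.map_cons, Multiset.prod_cons, Multiset.map_cons, Multiset.sum_cons, map_mul,
          map_mul, norm_mul, Real.log_mul, ih.1]
        · exact ⟨rfl, mul_ne_zero (hβ0 _ _) ih.2⟩
        · exact norm_ne_zero_iff.2 ((map_ne_zero jp).2 ((map_ne_zero σ).2 (hβ0 _ _)))
        · exact norm_ne_zero_iff.2 ((map_ne_zero jp).2 ((map_ne_zero σ).2 ih.2))
    rw [← (h3 s.attach).1]
    have h4 := congrArg (fun x => Real.log ‖jp (σ x)‖) hz
    simp only [map_pow, norm_pow, Real.log_pow, map_natCast] at h4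
    rw [log_norm_p] at h4
    have h5 : (0 : ℝ) < R := Nat.cast_pos.2 hR
    push_cast at h4
    apply mul_left_cancel₀ h5.ne'
    linear_combination h4
  have hgen := generated_of_rel (Short p (a * (2 * d.factorial)) W d (2 * m * d.factorial)
    (max 2 N₀)) (fun t : T => ι (rhoT ι a W d m t)) (vec (Phi jp ι a W d m)) (max 2 N₀)
    (le_max_left _ _) (fun A A' hc h => short_of_rel jp ha hW hd A A' hc h)
    (fun n hn => Sm_mono _ (le_max_right _ _)
      (hN₀ (L ≃ₐ[ℚ] L) _ (Phi jp ι a W d m) _ hu (vec_bound jp ha hW hd hm) n hn)) A A' hrel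
  have h1 : real (fun t : T => ι (rhoT ι a W d m t)) A A' =
      (s.map fun α => α ^ (2 * d.factorial)) +
        Multiset.replicate (2 * M) ((p : ℂ) ^ (a * d.factorial)) := by
    unfold real
    congr 1
    · rw [Multiset.map_map]
      have h2 : (s.attach.map fun α => (α.1 : ℂ) ^ (2 * d.factorial)) =
          s.map fun α => α ^ (2 * d.factorial) := Multiset.attach_map_val' s _
      rw [← h2]
      refine Multiset.map_congr rfl fun α _ => ?_
      change ι (rho d (core d (β α.1 α.2) (hβd α.1 α.2)).1 (β α.1 α.2)) = _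
      rw [rho_core, map_pow, hβ]
    · rw [Multiset.map_replicate]
      congr 1
      change (starRingEnd ℂ) (ι ((p : L) ^ (a * d.factorial))) = _
      rw [map_pow, map_pow, map_natCast, map_natCast]
  rw [h1] at hgen
  exact cancel_pairs _ _ (by rw [map_pow, map_natCast]) M _ hgen

end

end Pool.Agent.Y137.BG
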