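import Mathlib
import Pool.Agent.Y137.BG.Main
import Pool.Agent.Y137.BG.GeoDefs

/-!
# Weil numbers and abelian varieties
-/

set_option linter.unusedSectionVars false

namespace Pool.Agent.Y137.BG

open Polynomial

noncomputable section

variable {p : ℕ} [Fact p.Prime]

theorem minpoly_eq_of_mem {π β : ℂ} (hπ : IsIntegral ℤ π)
    (hβ : β ∈ (minpoly ℚ π).rootSet ℂ) : minpoly ℚ β = minpoly ℚ π := by
  have h1 : IsIntegral ℚ π := hπ.tower_top
  exact (minpoly.eq_of_irreducible_of_monic (minpoly.irreducible h1)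
    (mem_rootSet.1 hβ).2 (minpoly.monic h1)).symm

theorem integral_of_mem {π β : ℂ} (hπ : IsIntegral ℤ π)
    (hβ : β ∈ (minpoly ℚ π).rootSet ℂ) : IsIntegral ℤ β := by
  refine ⟨minpoly ℤ π, minpoly.monic hπ, ?_⟩
  have h1 : minpoly ℚ π = (minpoly ℤ π).map (algebraMap ℤ ℚ) :=
    minpoly.isIntegrallyClosed_eq_field_fractions' ℚ hπ
  have h2 := (mem_rootSet.1 hβ).2
  rw [h1, aeval_map_algebraMap] at h2
  exact h2

theorem natDegree_pow_le {L : Type} [Field L] [NumberField L] (b : L) (t : ℕ) :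
    (minpoly ℚ (b ^ t)).natDegree ≤ (minpoly ℚ b).natDegree := by
  have h1 : b ^ t ∈ IntermediateField.adjoin ℚ {b} :=
    pow_mem (IntermediateField.mem_adjoin_simple_self ℚ b) t
  have hb : IsIntegral ℚ b := Algebra.IsIntegral.isIntegral b
  have h2 : (minpoly ℚ (⟨b ^ t, h1⟩ : IntermediateField.adjoin ℚ {b})).natDegree ≤
      Module.finrank ℚ (IntermediateField.adjoin ℚ {b}) := minpoly.natDegree_le _
  rw [IntermediateField.adjoin.finrank hb] at h2
  have h3 : minpoly ℚ (⟨b ^ t, h1⟩ : IntermediateField.adjoin ℚ {b}) =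
      minpoly ℚ (b ^ t) :=
    (minpoly.algHom_eq (IntermediateField.val _) Subtype.val_injective _).symm
  rwa [h3] at h2

theorem card_rootSet {π : ℂ} (hπ : IsIntegral ℤ π) :
    Nat.card ((minpoly ℚ π).rootSet ℂ) = (minpoly ℚ π).natDegree := by
  have h1 : IsIntegral ℚ π := hπ.tower_top
  rw [Nat.card_eq_fintype_card]
  exact card_rootSet_eq_natDegree (minpoly.irreducible h1).separable (IsAlgClosed.splits _)

theorem card_le (A : AbVar p) (j : A.J) :
    (minpoly ℚ (A.π j)).natDegree * A.n j ≤ Nat.card A.frob.ι := by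
  have h1 : Nat.card (((minpoly ℚ (A.π j)).rootSet ℂ) × Fin (A.n j)) ≤ Nat.card A.frob.ι :=
    Nat.card_le_card_of_injective (fun x => (⟨j, x⟩ : A.frob.ι)) fun x y h =>
      eq_of_heq (Sigma.mk.inj h).2
  rwa [Nat.card_prod, card_rootSet (A.integral j), Nat.card_eq_fintype_card,
    Fintype.card_fin] at h1

/-- The powers of the eigenvalues, as Weil numbers of weight one. -/
theorem member_of_pure {B W : ℕ} {C : Frob} (hC : IsPure p B W C) (i : C.ι) (t : ℕ) :
    IsMember p (C.a * C.w * t) {1} B (B.factorial * W.factorial) (C.eig i ^ t) := by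
  have hint := hC.integral i
  obtain ⟨L, _, _, ι, hι⟩ := exists_field {C.eig i} (fun α hα => by
    rw [Multiset.mem_singleton.1 hα]
    exact hint)
  obtain ⟨b, hb⟩ := hι (C.eig i) (Multiset.mem_singleton_self _)
  let jp : L →ₐ[ℚ] PadicAlgCl p := IsAlgClosed.lift
  have hminb : minpoly ℚ b = minpoly ℚ (C.eig i) := by
    rw [← hb, minpoly.algHom_eq ι ι.injective]
  have hdeg : (minpoly ℚ (C.eig i)).natDegree ≤ Nat.card C.ι := by
    choose f hf using fun γ : (minpoly ℚ (C.eig i)).rootSet ℂ => hC.conj i γ.1 γ.2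
    rw [← card_rootSet hint]
    refine Nat.card_le_card_of_injective f fun x y h => Subtype.ext ?_
    rw [← hf x, ← hf y, h]
  have hgood : Good ι (p ^ C.a) C.w b := by
    refine ⟨?_, fun σ => ?_⟩
    · rw [← hb] at hint
      exact (isIntegral_algHom_iff ((ι : L →+* ℂ).toIntAlgHom) (ι : L →+* ℂ).injective).1 hint
    · have h1 : ι (σ b) ∈ (minpoly ℚ (C.eig i)).rootSet ℂ := by
        rw [← hb]
        have h2 := (mem_aroots_iff ι b (ι (σ b))).2 ⟨σ, rfl⟩
        rw [mem_rootSet]
        exact mem_aroots.1 h2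
      obtain ⟨j, hj⟩ := hC.conj i _ h1
      rw [← hj, hC.weil j]
      push_cast
      rw [← pow_mul]
  have hx : ι (b ^ t) = C.eig i ^ t := by rw [map_pow, hb]
  rw [← hx]
  refine member_of jp (w := 1) (Finset.mem_singleton_self 1) ?_ ?_ fun σ => ?_
  · have h1 := hgood.pow t
    refine ⟨h1.int, fun σ => ?_⟩
    rw [h1.abs σ]
    push_cast
    rw [← pow_mul, ← pow_mul]
    congr 1
    ring
  · refine (natDegree_pow_le b t).trans ?_
    rw [hminb]
    exact hdeg.trans hC.card_le
  · have h1 : jp (σ b) ∈ (minpoly ℚ (C.eig i)).rootSet (PadicAlgCl p) := by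
      have h2 := (mem_aroots_iff jp b (jp (σ b))).2 ⟨σ, rfl⟩
      rw [minpoly.algHom_eq jp jp.injective, hminb] at h2
      rw [mem_rootSet]
      exact mem_aroots.1 h2
    obtain ⟨c, k, hc0, hc, hk⟩ := hC.slopes i _ h1
    obtain ⟨e, he⟩ : c ∣ B.factorial := Nat.dvd_factorial hc0 (hc.trans hC.card_le)
    obtain ⟨f, hf⟩ : C.w ∣ W.factorial := Nat.dvd_factorial hC.weight_pos hC.weight_le
    refine ⟨k * e * f, ?_⟩
    rw [map_pow, map_pow, norm_pow, ← pow_mul, he, hf]
    have h5 : t * (c * e * (C.w * f)) = c * (t * e * C.w * f) := by ring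
    rw [h5, pow_mul, hk, ← pow_mul]
    congr 1
    ring

theorem frob_weil (A : AbVar p) (i : A.frob.ι) : ‖A.frob.eig i‖ ^ 2 = (p : ℝ) ^ A.a :=
  A.weil i.1 _ i.2.1.2

/-- The Tate modules of abelian varieties of bounded dimension. -/
theorem isPure_of_small {B W : ℕ} (A : AbVar p) (hA : Nat.card A.frob.ι ≤ B) (hW : 1 ≤ W) :
    IsPure p B W A.frob where
  pos := A.pos
  weight_pos := one_pos
  weight_le := hW
  card_le := hA
  integral i := integral_of_mem (A.integral i.1) i.2.1.2
  conj i β hβ := by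
    change β ∈ (minpoly ℚ (i.2.1 : ℂ)).rootSet ℂ at hβ
    rw [minpoly_eq_of_mem (A.integral i.1) i.2.1.2] at hβ
    exact ⟨⟨i.1, ⟨β, hβ⟩, i.2.2⟩, rfl⟩
  weil i := by
    rw [frob_weil]
    change (p : ℝ) ^ A.a = (p : ℝ) ^ (A.a * 1)
    rw [mul_one]
  slopes i x hx := by
    change x ∈ (minpoly ℚ (i.2.1 : ℂ)).rootSet (PadicAlgCl p) at hx
    rw [minpoly_eq_of_mem (A.integral i.1) i.2.1.2] at hx
    obtain ⟨k, hk⟩ := A.hondaTate i.1 x hx
    have hn : 0 < A.n i.1 := Fin.pos i.2.2
    have hintx : IsIntegral ℚ_[p] x := Algebra.IsIntegral.isIntegral _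
    have h3 : (minpoly ℚ_[p] x).natDegree ≤ (minpoly ℚ (A.π i.1)).natDegree := by
      have h4 : minpoly ℚ_[p] x ∣ (minpoly ℚ (A.π i.1)).map (algebraMap ℚ ℚ_[p]) := by
        apply minpoly.dvd
        rw [aeval_map_algebraMap]
        exact (mem_rootSet.1 hx).2
      have h6 := natDegree_le_of_dvd h4 (by
        rw [Polynomial.map_ne_zero_iff (algebraMap ℚ ℚ_[p]).injective]
        exact (mem_rootSet.1 hx).1)
      rwa [natDegree_map] at h6
    refine ⟨_, k, Nat.mul_pos hn (minpoly.natDegree_pos hintx), ?_, hk⟩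
    rw [mul_comm]
    exact (Nat.mul_le_mul_right _ h3).trans (card_le A i.1)

/-- Each Weil number of bounded degree and with bounded denominators of the slopes is a Frobenius
eigenvalue of an abelian variety of bounded dimension. -/
theorem exists_abVar {b d m : ℕ} (hb : 0 < b) {x : ℂ} (hx : IsMember p b {1} d m x) :
    ∃ Z : AbVar p, Z.a = b ∧ Nat.card Z.frob.ι ≤ d * (2 * m) ∧
      (0 < m → ∃ i : Z.frob.ι, Z.frob.eig i = x) := by
  have hint := hx.weil.1
  have hintQ : IsIntegral ℚ x := hint.tower_top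
  let Z : AbVar p :=
    { a := b
      pos := hb
      J := Unit
      π := fun _ => x
      n := fun _ => 2 * m
      integral := fun _ => hint
      weil := by
        intro _ β hβ
        obtain ⟨w, hw, h⟩ := hx.weil.2
        rw [Finset.mem_singleton] at hw
        subst hw
        have h1 := h β (by
          rw [mem_aroots]
          exact mem_rootSet.1 hβ)
        rw [h1]
        push_cast
        rw [pow_one]
      real := fun _ _ => even_two_mul m
      hondaTate := by
        intro _ y hy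
        obtain ⟨k, hk⟩ := hx.slopes y (by
          rw [mem_aroots]
          exact mem_rootSet.1 hy)
        refine ⟨k * (2 * (minpoly ℚ_[p] y).natDegree), ?_⟩
        have h1 : 2 * m * (minpoly ℚ_[p] y).natDegree =
            m * (2 * (minpoly ℚ_[p] y).natDegree) := by ring
        rw [h1, pow_mul, hk, ← pow_mul]
        congr 1
        ring }
  refine ⟨Z, rfl, ?_, fun hm => ⟨⟨(), ⟨x, ?_⟩, ⟨0, ?_⟩⟩, rfl⟩⟩
  · have h1 : Nat.card Z.frob.ι = (minpoly ℚ x).natDegree * (2 * m) := by
      have h2 : Nat.card Z.frob.ι = Nat.card (((minpoly ℚ x).rootSet ℂ) × Fin (2 * m)) := by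
        refine Nat.card_congr ⟨fun y => y.2, fun y => ⟨(), y⟩, fun y => ?_, fun y => rfl⟩
        rfl
      rw [h2, Nat.card_prod, card_rootSet hint, Nat.card_eq_fintype_card, Fintype.card_fin]
    rw [h1]
    exact Nat.mul_le_mul_right _ hx.degree
  · rw [mem_rootSet]
    exact ⟨minpoly.ne_zero hintQ, minpoly.aeval ℚ x⟩
  · change 0 < 2 * m
    omega

end

end Pool.Agent.Y137.BG
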