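import Mathlib
import Pool.Agent.Y137.BG.GeoA

/-!
# Words in eigenvectors of Frobenius
-/

set_option linter.unusedSectionVars false

namespace Pool.Agent.Y137.BG

open Polynomial Sum

noncomputable section

variable {p : ℕ} [Fact p.Prime] {𝒳 : Type} {H : 𝒳 → Frob}

theorem F_pow_apply (C : Frob) (s : ℕ) (v : C.V) (i : C.ι) :
    (C.F ^ s) v i = C.eig i ^ s * v i := by
  induction s generalizing v with
  | zero => simp
  | succ s ih =>
    rw [pow_succ, Module.End.mul_apply, ih]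
    change C.eig i ^ s * (C.eig i * v i) = _
    ring

/-- A letter: an object and the index of an eigenvalue. -/
abbrev Letter (p : ℕ) [Fact p.Prime] {𝒳 : Type} (H : 𝒳 → Frob) : Type 1 :=
  Σ Y : AbVar p ⊕ 𝒳, (frob H Y).ι

/-- The ground field of a letter. -/
def Letter.a (l : Letter p H) : ℕ := (frob H l.1).a

/-- The weight of a letter. -/
def Letter.w (l : Letter p H) : ℕ := (frob H l.1).w

/-- The eigenvalue of a letter. -/
def Letter.x (l : Letter p H) : ℂ := (frob H l.1).eig l.2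

/-- The product of the coordinates. -/
def mono {κ : Type} [Fintype κ] (L : κ → Letter p H) :
    MultilinearMap ℂ (fun k => (frob H (L k).1).V) ℂ :=
  (MultilinearMap.mkPiAlgebra ℂ κ ℂ).compLinearMap fun k =>
    (LinearMap.proj (L k).2 : (frob H (L k).1).V →ₗ[ℂ] ℂ)

theorem mono_apply {κ : Type} [Fintype κ] (L : κ → Letter p H)
    (v : ∀ k, (frob H (L k).1).V) : mono L v = ∏ k, v k (L k).2 := rfl

/-- The class of a word is in the system. -/
def Wd (𝒜 : ClassSystem p H) {κ : Type} [Fintype κ] (L : κ → Letter p H) : Prop :=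
  𝒜 κ (fun k => (L k).1) (mono L)

section words

variable {𝒜 : ClassSystem p H} (h𝒜 : IsStable H 𝒜)

include h𝒜

theorem Wd_prod {κ κ₁ κ₂ : Type} [Fintype κ] [Fintype κ₁] [Fintype κ₂] (e : κ₁ ⊕ κ₂ ≃ κ)
    (L : κ → Letter p H) (h1 : Wd 𝒜 (fun k => L (e (inl k))))
    (h2 : Wd 𝒜 (fun k => L (e (inr k)))) : Wd 𝒜 L := by
  refine h𝒜.prod e (fun k => (L k).1) _ _ (mono L) h1 h2 fun v => ?_
  rw [mono_apply, mono_apply, mono_apply,
    ← Fintype.prod_equiv e (fun k => v (e k) (L (e k)).2) _ fun _ => rfl, Fintype.prod_sum_type]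

theorem Wd_cap {κ : Type} [Fintype κ] (L : κ ⊕ Bool → Letter p H) (h : Wd 𝒜 L)
    (hl : (L (inr false)).1.isLeft) (hl' : (L (inr true)).1.isLeft) (b : ℕ) (hb : 0 < b)
    (s s' : ℕ) (hs : (L (inr false)).a * s = b) (hs' : (L (inr true)).a * s' = b)
    (hx : (L (inr false)).x ^ s * (L (inr true)).x ^ s' = (p : ℂ) ^ b) :
    Wd 𝒜 (fun k => L (inl k)) := by
  classical
  have hFx : ∀ (C : Frob) (s : ℕ) (l : C.ι), (C.F ^ s) (Pi.single l (1 : ℂ) : C.V) =
      C.eig l ^ s • (Pi.single l (1 : ℂ) : C.V) := by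
    intro C s l
    funext t
    rw [F_pow_apply, Pi.smul_apply, smul_eq_mul]
    by_cases ht : t = l
    · rw [ht]
    · rw [Pi.single_eq_of_ne ht, mul_zero, mul_zero]
  refine h𝒜.cap (fun k => (L k).1)
    (fun c => (Pi.single (L (inr c)).2 1 : (frob H (L (inr c)).1).V)) (mono L)
    (mono fun k => L (inl k)) ⟨hl, hl', s, s', b, _, _, hb, hs, hs', hFx _ _ _, hFx _ _ _, hx⟩ h
    fun v => ?_
  rw [mono_apply, mono_apply, Fintype.prod_sum_type, Fintype.prod_bool]
  change _ = (∏ k, v k (L (inl k)).2) *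
    ((Pi.single (L (inr true)).2 (1 : ℂ) : (frob H (L (inr true)).1).V) (L (inr true)).2 *
      (Pi.single (L (inr false)).2 (1 : ℂ) : (frob H (L (inr false)).1).V) (L (inr false)).2)
  rw [Pi.single_eq_same, Pi.single_eq_same, mul_one, mul_one]

end words

/-- Two letters which are equal, or abelian varieties with the same eigenvalue over a common extension
of the ground fields. -/
def Rel (l l' : Letter p H) : Prop :=
  l = l' ∨ ∃ (A A' : AbVar p) (i : A.frob.ι) (i' : A'.frob.ι) (s t : ℕ),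
    l = ⟨inl A, i⟩ ∧ l' = ⟨inl A', i'⟩ ∧ 0 < s ∧ 0 < t ∧ A.a * s = A'.a * t ∧
      A.frob.eig i ^ s = A'.frob.eig i' ^ t

theorem exists_mor (l l' : Letter p H) (h : Rel l l') :
    ∃ f : (frob H l.1).V →ₗ[ℂ] (frob H l'.1).V, IsMor H l.1 l'.1 f ∧ ∀ v, f v l'.2 = v l.2 := by
  classical
  rcases h with rfl | ⟨A, A', i, i', s, t, rfl, rfl, hs, ht, hst, heq⟩
  · exact ⟨LinearMap.id, IsMor.id _, fun v => rfl⟩
  · refine ⟨(LinearMap.proj i : A.frob.V →ₗ[ℂ] ℂ).smulRight (Pi.single i' 1 : A'.frob.V),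
      IsMor.hom A A' _ ⟨s, t, hs, ht, hst, fun v => ?_⟩, fun v => ?_⟩
    · funext l
      rw [F_pow_apply]
      change (A.frob.F ^ s) v i * (Pi.single i' (1 : ℂ) : A'.frob.V) l =
        A'.frob.eig l ^ t * (v i * (Pi.single i' (1 : ℂ) : A'.frob.V) l)
      rw [F_pow_apply]
      by_cases hl : l = i'
      · subst hl
        rw [Pi.single_eq_same, heq]
        ring
      · rw [Pi.single_eq_of_ne hl]
        ring
    · change v i * (Pi.single i' (1 : ℂ) : A'.frob.V) i' = v i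
      rw [Pi.single_eq_same, mul_one]

section words

variable {𝒜 : ClassSystem p H} (h𝒜 : IsStable H 𝒜)

include h𝒜

theorem Wd_pull {κ : Type} [Fintype κ] (L L' : κ → Letter p H) (h : ∀ k, Rel (L k) (L' k))
    (h' : Wd 𝒜 L') : Wd 𝒜 L := by
  choose f hf1 hf2 using fun k => exists_mor (L k) (L' k) (h k)
  have h1 := h𝒜.pull (fun k => (L k).1) (fun k => (L' k).1) f (mono L') hf1 h'
  have h2 : (mono L').compLinearMap f = mono L := by
    refine MultilinearMap.ext fun v => ?_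
    rw [MultilinearMap.compLinearMap_apply, mono_apply, mono_apply]
    exact Finset.prod_congr rfl fun k _ => hf2 k _
  rw [h2] at h1
  exact h1

end words

/-- The Tate conjecture holds for families of total dimension at most `D` with at most one member
which is not an abelian variety. -/
def Small (𝒜 : ClassSystem p H) (D : ℕ) : Prop :=
  ∀ (κ : Type) [Fintype κ] (Y : κ → AbVar p ⊕ 𝒳), AtMostOneVariety Y →
    ∑ k, Nat.card (frob H (Y k)).ι ≤ D → ∀ φ, IsTateClass H Y φ → 𝒜 κ Y φ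

theorem Wd_tate {𝒜 : ClassSystem p H} {D : ℕ} (hD : Small 𝒜 D) {κ : Type} [Fintype κ]
    (L : κ → Letter p H) (h1 : ∀ k l, (L k).1.isRight → (L l).1.isRight → k = l)
    (hc : ∑ k, Nat.card (frob H (L k).1).ι ≤ D) (s : κ → ℕ) (b m : ℕ) (hb : 0 < b)
    (hs : ∀ k, (L k).a * s k = b) (hm : ∑ k, (L k).w = 2 * m)
    (hx : ∏ k, (L k).x ^ s k = (p : ℂ) ^ (b * m)) : Wd 𝒜 L := by
  refine hD κ (fun k => (L k).1) h1 hc (mono L) ⟨s, b, m, hb, hs, hm, fun v => ?_⟩
  rw [mono_apply, mono_apply]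
  simp only [F_pow_apply]
  rw [Finset.prod_mul_distrib]
  congr 1

theorem Wd_empty {𝒜 : ClassSystem p H} {D : ℕ} (hD : Small 𝒜 D) {κ : Type} [Fintype κ] [IsEmpty κ]
    (L : κ → Letter p H) : Wd 𝒜 L :=
  Wd_tate hD L (fun k => isEmptyElim k) (by simp) (fun _ => 0) 1 0 one_pos
    (fun k => isEmptyElim k) (by simp) (by simp)

section words

variable {𝒜 : ClassSystem p H} (h𝒜 : IsStable H 𝒜) {D : ℕ} (hD : Small 𝒜 D)

include h𝒜 hD

theorem Wd_equiv {κ κ' : Type} [Fintype κ] [Fintype κ'] (e : κ' ≃ κ) (L : κ → Letter p H)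
    (h : Wd 𝒜 (fun k => L (e k))) : Wd 𝒜 L := by
  let e' : κ' ⊕ Empty ≃ κ := (Equiv.sumEmpty κ' Empty).trans e
  exact Wd_prod h𝒜 e' L h (Wd_empty hD _)

theorem Wd_equiv' {κ κ' : Type} [Fintype κ] [Fintype κ'] (e : κ' ≃ κ) (L : κ → Letter p H)
    (h : Wd 𝒜 L) : Wd 𝒜 (fun k => L (e k)) := by
  refine Wd_equiv h𝒜 hD e.symm _ ?_
  have h1 : (fun k => L (e (e.symm k))) = L := by
    funext k
    rw [Equiv.apply_symm_apply]
  rw [h1]
  exact h

end words

end

end Pool.Agent.Y137.BG
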