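import Mathlib
import Pool.Agent.Y137.BG.GeoB

/-!
# Words with fixed letters and multisets of eigenvalues on abelian varieties
-/

set_option linter.unusedSectionVars false

namespace Pool.Agent.Y137.BG

open Polynomial Sum

noncomputable section

theorem exists_partition {κ : Type} (x : κ → ℂ) (s t : Multiset ℂ) :
    ∀ M : Multiset κ, M.map x = s + t → ∃ M₁ M₂, M = M₁ + M₂ ∧ M₁.map x = s ∧ M₂.map x = t := by
  classical
  induction s using Multiset.induction_on with
  | empty =>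
    intro M hM
    exact ⟨0, M, by simp, by simp, by simpa using hM⟩
  | cons a s ih =>
    intro M hM
    rw [Multiset.cons_add] at hM
    obtain ⟨k, hk, hka, hk2⟩ := (Multiset.map_eq_cons x M (s + t) a).2 hM
    obtain ⟨M₁, M₂, h1, h2, h3⟩ := ih (M.erase k) hk2
    refine ⟨k ::ₘ M₁, M₂, ?_, ?_, h3⟩
    · rw [Multiset.cons_add, ← h1, Multiset.cons_erase hk]
    · rw [Multiset.map_cons, hka, h2]

theorem generated_forall {P : Multiset ℂ → Prop} {Q : ℂ → Prop}
    (hPQ : ∀ s, P s → ∀ α ∈ s, Q α) {s : Multiset ℂ} (hs : Generated P s) : ∀ α ∈ s, Q α := by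
  induction hs with
  | base s hs => exact hPQ s hs
  | join s t _ _ ihs iht =>
    intro α hα
    rcases Multiset.mem_add.1 hα with h | h
    · exact ihs α h
    · exact iht α h
  | cancel α s _ ih =>
    intro γ hγ
    exact ih γ (Multiset.mem_cons_of_mem (Multiset.mem_cons_of_mem hγ))

variable {p : ℕ} [Fact p.Prime] {𝒳 : Type} {H : 𝒳 → Frob}

/-- All words that consist of the letters `L₀` and of letters which are eigenvalues on abelian
varieties, with the multiset `s` of eigenvalues over the field with `p ^ b` elements, belong to the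
system. -/
def Gd (𝒜 : ClassSystem p H) (b : ℕ) {κ₀ : Type} [Fintype κ₀] (L₀ : κ₀ → Letter p H)
    (s : Multiset ℂ) : Prop :=
  ∀ (κ : Type) [Fintype κ] (L : κ → Letter p H) (u : κ → ℕ), (∀ k, (L k).1.isLeft) →
    (∀ k, (L k).a * u k = b) →
    (Finset.univ : Finset κ).val.map (fun k => (L k).x ^ u k) = s → Wd 𝒜 (Sum.elim L₀ L)

theorem elim_eq {κ₁ κ₂ : Type} {X : Type 1} (L : κ₁ ⊕ κ₂ → X) :
    Sum.elim (fun k => L (inl k)) (fun k => L (inr k)) = L := by
  funext k
  rcases k with k | k <;> rfl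

section

variable {𝒜 : ClassSystem p H} (h𝒜 : IsStable H 𝒜) {D : ℕ} (hD : Small 𝒜 D)

include h𝒜 hD

theorem Gd_join {b : ℕ} {κ₁ κ₂ : Type} [Fintype κ₁] [Fintype κ₂] {L₁ : κ₁ → Letter p H}
    {L₂ : κ₂ → Letter p H} {s t : Multiset ℂ} (h1 : Gd 𝒜 b L₁ s) (h2 : Gd 𝒜 b L₂ t) :
    Gd 𝒜 b (Sum.elim L₁ L₂) (s + t) := by
  classical
  intro κ _ L u hl hu hmap
  obtain ⟨M₁, M₂, hM, hM1, hM2⟩ := exists_partition _ s t _ hmap
  have hnd : (M₁ + M₂).Nodup := by
    rw [← hM]
    exact Finset.univ.nodup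
  rw [Multiset.nodup_add] at hnd
  obtain ⟨hn1, hn2, hdis⟩ := hnd
  let A₁ : Finset κ := ⟨M₁, hn1⟩
  let A₂ : Finset κ := ⟨M₂, hn2⟩
  let e : {k // k ∈ A₁} ⊕ {k // k ∈ A₂} ≃ κ := Equiv.ofBijective
    (Sum.elim Subtype.val Subtype.val) (by
      constructor
      · rintro (⟨k, hk⟩ | ⟨k, hk⟩) (⟨l, hl⟩ | ⟨l, hl⟩) h
        · cases h
          rfl
        · cases h
          exact absurd hl (Multiset.disjoint_left.1 hdis hk)
        · cases h
          exact absurd hk (Multiset.disjoint_left.1 hdis hl)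
        · cases h
          rfl
      · intro k
        have hk : k ∈ M₁ + M₂ := by
          rw [← hM]
          exact Finset.mem_univ_val k
        rcases Multiset.mem_add.1 hk with h | h
        · exact ⟨inl ⟨k, h⟩, rfl⟩
        · exact ⟨inr ⟨k, h⟩, rfl⟩)
  let e' : (κ₁ ⊕ {k // k ∈ A₁}) ⊕ (κ₂ ⊕ {k // k ∈ A₂}) ≃ (κ₁ ⊕ κ₂) ⊕ κ :=
    (Equiv.sumSumSumComm κ₁ _ κ₂ _).trans (Equiv.sumCongr (Equiv.refl _) e)
  refine Wd_prod h𝒜 e' _ ?_ ?_
  · have h3 := h1 {k // k ∈ A₁} (fun k => L k.1) (fun k => u k.1) (fun k => hl _) (fun k => hu _)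
      (by
        rw [← hM1]
        exact Multiset.attach_map_val' M₁ (fun k => (L k).x ^ u k))
    have h4 : (fun k => Sum.elim (Sum.elim L₁ L₂) L (e' (inl k))) =
        Sum.elim L₁ fun k : {k // k ∈ A₁} => L k.1 := by
      funext k
      rcases k with k | k <;> rfl
    rw [h4]
    exact h3
  · have h3 := h2 {k // k ∈ A₂} (fun k => L k.1) (fun k => u k.1) (fun k => hl _) (fun k => hu _)
      (by
        rw [← hM2]
        exact Multiset.attach_map_val' M₂ (fun k => (L k).x ^ u k))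
    have h4 : (fun k => Sum.elim (Sum.elim L₁ L₂) L (e' (inr k))) =
        Sum.elim L₂ fun k : {k // k ∈ A₂} => L k.1 := by
      funext k
      rcases k with k | k <;> rfl
    rw [h4]
    exact h3

theorem Gd_equiv {b : ℕ} {κ₁ κ₂ : Type} [Fintype κ₁] [Fintype κ₂] (e : κ₁ ≃ κ₂)
    {L₁ : κ₁ → Letter p H} {L₂ : κ₂ → Letter p H} (hL : ∀ k, L₂ (e k) = L₁ k) {s : Multiset ℂ}
    (h1 : Gd 𝒜 b L₁ s) : Gd 𝒜 b L₂ s := by
  intro κ _ L u hl hu hmap
  refine Wd_equiv h𝒜 hD (Equiv.sumCongr e (Equiv.refl κ)) _ ?_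
  have h2 : (fun k => Sum.elim L₂ L ((Equiv.sumCongr e (Equiv.refl κ)) k)) = Sum.elim L₁ L := by
    funext k
    rcases k with k | k
    · exact hL k
    · rfl
  rw [h2]
  exact h1 κ L u hl hu hmap

theorem Gd_cancel {b d m : ℕ} (hb : 0 < b) (hm : 0 < m) {κ₀ : Type} [Fintype κ₀]
    {L₀ : κ₀ → Letter p H} {s : Multiset ℂ} (α : ℂ) (hα : IsMember p b {1} d m α)
    (h : Gd 𝒜 b L₀ (α ::ₘ (starRingEnd ℂ) α ::ₘ s)) : Gd 𝒜 b L₀ s := by
  classical
  intro κ _ L u hl hu hmap
  obtain ⟨Z, hZa, -, hZ⟩ := exists_abVar hb hα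
  obtain ⟨Z', hZa', -, hZ'⟩ := exists_abVar hb (member_conj hα)
  obtain ⟨j, hj⟩ := hZ hm
  obtain ⟨j', hj'⟩ := hZ' hm
  let l : Letter p H := ⟨inl Z, j⟩
  let l' : Letter p H := ⟨inl Z', j'⟩
  let L' : κ ⊕ Bool → Letter p H := Sum.elim L fun c => bif c then l' else l
  have h1 : Wd 𝒜 (Sum.elim L₀ L') := by
    refine h (κ ⊕ Bool) L' (Sum.elim u fun _ => 1) ?_ ?_ ?_
    · rintro (k | (_ | _))
      · exact hl k
      · rfl
      · rfl
    · rintro (k | (_ | _))
      · exact hu k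
      · change Z.a * 1 = b
        rw [hZa, mul_one]
      · change Z'.a * 1 = b
        rw [hZa', mul_one]
    · rw [← Finset.univ_disjSum_univ, Finset.val_disjSum, Multiset.disjSum, Multiset.map_add,
        Multiset.map_map, Multiset.map_map]
      have h2 : (Finset.univ : Finset κ).val.map
          ((fun k => (L' k).x ^ (Sum.elim u (fun _ => 1) k)) ∘ inl) = s := hmap
      rw [h2]
      have h3 : (Finset.univ : Finset Bool).val.map
          ((fun k => (L' k).x ^ (Sum.elim u (fun _ => 1) k)) ∘ inr) = {(starRingEnd ℂ) α, α} := by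
        have h4 : (Finset.univ : Finset Bool).val = {true, false} := rfl
        rw [h4]
        change ({Z'.frob.eig j' ^ 1, Z.frob.eig j ^ 1} : Multiset ℂ) = _
        rw [hj, hj', pow_one, pow_one]
      rw [h3, add_comm, Multiset.insert_eq_cons, Multiset.cons_add, Multiset.singleton_add,
        Multiset.cons_swap]
  have h2 := Wd_equiv' h𝒜 hD (Equiv.sumAssoc κ₀ κ Bool) _ h1
  have h3 : l.x ^ 1 * l'.x ^ 1 = (p : ℂ) ^ b := by
    change Z.frob.eig j ^ 1 * Z'.frob.eig j' ^ 1 = _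
    have h4 := frob_weil Z j
    rw [hj, hZa] at h4
    rw [hj, hj', pow_one, pow_one, Complex.mul_conj, Complex.normSq_eq_norm_sq, h4]
    push_cast
    rfl
  have h4 := Wd_cap h𝒜 _ h2 rfl rfl b hb 1 1 (by
    change Z.a * 1 = b
    rw [hZa, mul_one]) (by
    change Z'.a * 1 = b
    rw [hZa', mul_one]) h3
  have h5 : (fun k => Sum.elim L₀ L' ((Equiv.sumAssoc κ₀ κ Bool) (inl k))) = Sum.elim L₀ L := by
    funext k
    rcases k with k | k <;> rfl
  rw [h5] at h4
  exact h4

theorem Gd_cancel_all {b d m : ℕ} (hb : 0 < b) (hm : 0 < m) {κ₀ : Type} [Fintype κ₀]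
    {L₀ : κ₀ → Letter p H} {s : Multiset ℂ} (M : Multiset ℂ) :
    (∀ α ∈ M, IsMember p b {1} d m α) → Gd 𝒜 b L₀ (s + M + M.map (starRingEnd ℂ)) →
      Gd 𝒜 b L₀ s := by
  induction M using Multiset.induction_on with
  | empty =>
    intro _ h
    simpa using h
  | cons x M ih =>
    intro hM h
    refine ih (fun α hα => hM α (Multiset.mem_cons_of_mem hα)) ?_
    refine Gd_cancel h𝒜 hD hb hm x (hM x (Multiset.mem_cons_self x M)) ?_
    have h1 : x ::ₘ (starRingEnd ℂ) x ::ₘ (s + M + M.map (starRingEnd ℂ)) =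
        s + x ::ₘ M + (x ::ₘ M).map (starRingEnd ℂ) := by
      rw [Multiset.map_cons]
      simp only [← Multiset.singleton_add]
      abel
    rw [h1]
    exact h

end

theorem abVar_of_isLeft (l : Letter p H) (h : l.1.isLeft) :
    ∃ (A : AbVar p) (i : A.frob.ι), l = ⟨inl A, i⟩ := by
  obtain ⟨Y, i⟩ := l
  cases Y with
  | inl A => exact ⟨A, i, rfl⟩
  | inr X => exact absurd h (by simp)

section

variable {𝒜 : ClassSystem p H} (h𝒜 : IsStable H 𝒜) {D : ℕ} (hD : Small 𝒜 D)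

include h𝒜 hD

/-- Replace all letters by letters on abelian varieties of bounded dimension. -/
theorem exists_small {b d m : ℕ} (hb : 0 < b) (hm : 0 < m) {κ : Type} [Fintype κ]
    (L : κ → Letter p H) (u : κ → ℕ) (hl : ∀ k, (L k).1.isLeft) (hu : ∀ k, (L k).a * u k = b)
    (hmem : ∀ k, IsMember p b {1} d m ((L k).x ^ u k)) :
    ∃ L' : κ → Letter p H, (∀ k, Rel (L k) (L' k)) ∧ (∀ k, (L' k).a = b) ∧
      (∀ k, (L' k).x = (L k).x ^ u k) ∧ (∀ k, (L' k).1.isLeft) ∧
      ∀ k, Nat.card (frob H (L' k).1).ι ≤ d * (2 * m) := by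
  choose Z hZa hZc hZi using fun k => exists_abVar hb (hmem k)
  choose j hj using fun k => hZi k hm
  refine ⟨fun k => ⟨inl (Z k), j k⟩, fun k => ?_, hZa, hj, fun _ => rfl, hZc⟩
  obtain ⟨A, i, hA⟩ := abVar_of_isLeft (L k) (hl k)
  have hu0 : 0 < u k := by
    rcases Nat.eq_zero_or_pos (u k) with h0 | h0
    · have h1 := hu k
      rw [h0, mul_zero] at h1
      omega
    · exact h0
  refine Or.inr ⟨A, Z k, i, j k, u k, 1, hA, rfl, hu0, one_pos, ?_, ?_⟩
  · have h1 := hu k
    rw [hA] at h1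
    rw [hZa, mul_one]
    exact h1
  · rw [pow_one, hj, hA]
    rfl

/-- Words of bounded length. -/
theorem Gd_base {b d m N : ℕ} (hb : 0 < b) (hm : 0 < m) (hND : N * (d * (2 * m)) ≤ D)
    {s : Multiset ℂ} (hs : Short p b {1} d m N s) :
    Gd 𝒜 b (fun k : Empty => (Empty.elim k : Letter p H)) s := by
  classical
  intro κ _ L u hl hu hmap
  have hp1 : 1 < p := (Fact.out : p.Prime).one_lt
  refine Wd_equiv h𝒜 hD (Equiv.emptySum Empty κ).symm _ ?_
  change Wd 𝒜 L
  have hmem : ∀ k, IsMember p b {1} d m ((L k).x ^ u k) := by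
    intro k
    apply hs.member
    rw [← hmap, Multiset.mem_map]
    exact ⟨k, Finset.mem_univ_val k, rfl⟩
  obtain ⟨L', hrel, hLa, hLx, hLl, hLc⟩ := exists_small h𝒜 hD hb hm L u hl hu hmem
  refine Wd_pull h𝒜 L L' hrel ?_
  obtain ⟨M, R, hR, hMR⟩ := hs.tate
  have hprod : s.prod = ∏ k, (L' k).x := by
    rw [← hmap]
    change ∏ k, (L k).x ^ u k = _
    exact Finset.prod_congr rfl fun k _ => (hLx k).symm
  rw [hprod] at hMR
  have hw : ∀ k, (L' k).w = 1 := by
    intro k
    obtain ⟨A, i, hA⟩ := abVar_of_isLeft (L' k) (hLl k)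
    rw [hA]
    rfl
  have hnorm : ∀ k, ‖(L' k).x‖ ^ 2 = (p : ℝ) ^ b := by
    intro k
    obtain ⟨A, i, hA⟩ := abVar_of_isLeft (L' k) (hLl k)
    have h1 := hLa k
    rw [hA] at h1 ⊢
    rw [← h1]
    exact frob_weil A i
  have hcard : Fintype.card κ = 2 * M := by
    have h1 := congrArg (fun z : ℂ => ‖z‖ ^ 2) hMR
    simp only [norm_pow, norm_prod, Complex.norm_natCast] at h1
    have h2 : (∏ k, ‖(L' k).x‖) ^ 2 = ((p : ℝ) ^ b) ^ Fintype.card κ := by
      rw [← Finset.prod_pow, Finset.prod_congr rfl (fun k _ => hnorm k), Finset.prod_const,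
        Finset.card_univ]
    rw [← pow_mul, mul_comm R 2, pow_mul, h2, ← pow_mul, ← pow_mul] at h1
    have h3 : (1 : ℝ) < p := by exact_mod_cast hp1
    push_cast at h1
    rw [← pow_mul, ← pow_mul] at h1
    have h4 := pow_right_injective₀ (zero_lt_one.trans h3) h3.ne' h1
    have h5 : b * R * Fintype.card κ = b * R * (2 * M) := by
      have h6 : b * (Fintype.card κ * R) = b * (M * R * 2) := by simpa using h4
      calc b * R * Fintype.card κ = b * (Fintype.card κ * R) := by ring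
        _ = b * (M * R * 2) := h6
        _ = _ := by ring
    exact Nat.eq_of_mul_eq_mul_left (Nat.mul_pos hb hR) h5
  refine Wd_tate hD L' ?_ ?_ (fun _ => R) (b * R) M (Nat.mul_pos hb hR) (fun k => by rw [hLa]) ?_ ?_
  · intro k l hk _
    have h1 := hLl k
    rw [Sum.isLeft_iff] at h1
    rw [Sum.isRight_iff] at hk
    obtain ⟨y, hy⟩ := h1
    obtain ⟨z, hz⟩ := hk
    rw [hy] at hz
    exact absurd hz (by simp)
  · have hcardN : Fintype.card κ ≤ N := by
      have h1 := hs.card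
      rw [← hmap, Multiset.card_map] at h1
      exact h1
    calc ∑ k, Nat.card (frob H (L' k).1).ι ≤ ∑ _k : κ, d * (2 * m) :=
          Finset.sum_le_sum fun k _ => hLc k
      _ = Fintype.card κ * (d * (2 * m)) := by
        rw [Finset.sum_const, Finset.card_univ, smul_eq_mul]
      _ ≤ N * (d * (2 * m)) := Nat.mul_le_mul_right _ hcardN
      _ ≤ D := hND
  · rw [Finset.sum_congr rfl (fun k _ => hw k), Finset.sum_const, Finset.card_univ, smul_eq_mul,
      mul_one, hcard]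
  · rw [Finset.prod_pow, hMR]
    push_cast
    rw [← pow_mul]
    congr 1
    ring

theorem Gd_generated {b d m N : ℕ} (hb : 0 < b) (hm : 0 < m) (hND : N * (d * (2 * m)) ≤ D)
    {s : Multiset ℂ} (hs : Generated (Short p b {1} d m N) s) :
    Gd 𝒜 b (fun k : Empty => (Empty.elim k : Letter p H)) s := by
  induction hs with
  | base s hs => exact Gd_base h𝒜 hD hb hm hND hs
  | join s t _ _ ihs iht =>
    exact Gd_equiv h𝒜 hD (Equiv.sumEmpty Empty Empty) (fun k => by
      rcases k with k | k <;> exact k.elim) (Gd_join h𝒜 hD ihs iht)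
  | cancel α s hs ih =>
    have hmem := generated_forall (Q := fun α => IsMember p b {1} d m α)
      (fun s hs => hs.member) hs
    exact Gd_cancel h𝒜 hD hb hm α (hmem α (Multiset.mem_cons_self _ _)) ih

end

end

end Pool.Agent.Y137.BG
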