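import Mathlib
import Pool.Agent.Y137.BG.GeoC

/-!
# The Tate conjecture for products of any number of varieties with bounded Betti numbers
-/

set_option linter.unusedSectionVars false

namespace Pool.Agent.Y137.BG

open Polynomial Sum

noncomputable section

variable {p : ℕ} [Fact p.Prime] {𝒳 : Type} {H : 𝒳 → Frob}

theorem member_mono {b : ℕ} {W : Finset ℕ} {d m : ℕ} (c : ℕ) {x : ℂ} (h : IsMember p b W d m x) :
    IsMember p b W d (c * m) x := by
  refine ⟨h.weil, h.degree, fun y hy => ?_⟩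
  obtain ⟨k, hk⟩ := h.slopes y hy
  refine ⟨k * c, ?_⟩
  rw [mul_comm c m, pow_mul, hk, ← pow_mul, mul_assoc]

section

variable {𝒜 : ClassSystem p H} (h𝒜 : IsStable H 𝒜) {D : ℕ} (hD : Small 𝒜 D)

include h𝒜 hD

/-- The relation between a variety and an abelian variety. -/
theorem Gd_letter {b d m B W : ℕ} (hb : 0 < b) (hm : 0 < m) (hDD : B + W * (d * (2 * m)) ≤ D)
    (l : Letter p H) (hl : IsPure p B W (frob H l.1)) (t : ℕ) (hbt : b = l.a * l.w * t)
    (hmem : IsMember p b {1} d m (l.x ^ t)) :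
    Gd 𝒜 b (fun _ : Unit => l) (Multiset.replicate l.w ((starRingEnd ℂ) (l.x ^ t))) := by
  classical
  intro κ _ L u hL hu hmap
  have hmem' : ∀ k, (L k).x ^ u k = (starRingEnd ℂ) (l.x ^ t) := by
    intro k
    have h1 : (L k).x ^ u k ∈ (Finset.univ : Finset κ).val.map (fun k => (L k).x ^ u k) :=
      Multiset.mem_map_of_mem _ (Finset.mem_univ_val k)
    rw [hmap] at h1
    exact Multiset.eq_of_mem_replicate h1
  have hcard : Fintype.card κ = l.w := by
    have h1 := congrArg Multiset.card hmap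
    rw [Multiset.card_map, Multiset.card_replicate] at h1
    exact h1
  obtain ⟨L', hrel, hLa, hLx, hLl, hLc⟩ := exists_small h𝒜 hD hb hm L u hL hu (fun k => by
    rw [hmem']
    exact member_conj hmem)
  refine Wd_pull h𝒜 _ (Sum.elim (fun _ => l) L') ?_ ?_
  · rintro (k | k)
    · exact Or.inl rfl
    · exact hrel k
  have hw : ∀ k, (L' k).w = 1 := by
    intro k
    obtain ⟨A, i, hA⟩ := abVar_of_isLeft (L' k) (hLl k)
    rw [hA]
    rfl
  have hnr : ∀ k, ¬ (L' k).1.isRight := by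
    intro k hk
    have h1 := hLl k
    rw [Sum.isLeft_iff] at h1
    rw [Sum.isRight_iff] at hk
    obtain ⟨y, hy⟩ := h1
    obtain ⟨z, hz⟩ := hk
    rw [hy] at hz
    exact absurd hz (by simp)
  have hnorm : l.x ^ t * (starRingEnd ℂ) (l.x ^ t) = (p : ℂ) ^ b := by
    rw [Complex.mul_conj, Complex.normSq_eq_norm_sq, norm_pow, ← pow_mul, mul_comm t 2, pow_mul]
    have h1 : ‖l.x‖ ^ 2 = (p : ℝ) ^ (l.a * l.w) := hl.weil l.2
    rw [h1, ← pow_mul, ← hbt]
    push_cast
    rfl
  refine Wd_tate hD _ ?_ ?_ (Sum.elim (fun _ => l.w * t) fun _ => 1) b l.w hb ?_ ?_ ?_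
  · rintro (k | k) (k' | k') h1 h2
    · rfl
    · exact absurd h2 (hnr k')
    · exact absurd h1 (hnr k)
    · exact absurd h1 (hnr k)
  · rw [Fintype.sum_sum_type]
    have h1 : ∑ _k : Unit, Nat.card (frob H l.1).ι ≤ B := by
      rw [Fintype.sum_unique]
      exact hl.card_le
    have h2 : ∑ k, Nat.card (frob H (L' k).1).ι ≤ W * (d * (2 * m)) := by
      calc ∑ k, Nat.card (frob H (L' k).1).ι ≤ ∑ _k : κ, d * (2 * m) :=
            Finset.sum_le_sum fun k _ => hLc k
        _ = l.w * (d * (2 * m)) := by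
          rw [Finset.sum_const, Finset.card_univ, smul_eq_mul, hcard]
        _ ≤ W * (d * (2 * m)) := Nat.mul_le_mul_right _ hl.weight_le
    exact (add_le_add h1 h2).trans hDD
  · rintro (k | k)
    · change l.a * (l.w * t) = b
      rw [hbt, mul_assoc]
    · change (L' k).a * 1 = b
      rw [hLa, mul_one]
  · rw [Fintype.sum_sum_type]
    have h1 : ∑ _k : Unit, l.w = l.w := by rw [Fintype.sum_unique]
    have h2 : ∑ k, (L' k).w = l.w := by
      rw [Finset.sum_congr rfl (fun k _ => hw k), Finset.sum_const, Finset.card_univ, smul_eq_mul,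
        mul_one, hcard]
    change ∑ _k : Unit, l.w + ∑ k, (L' k).w = 2 * l.w
    rw [h1, h2, two_mul]
  · rw [Fintype.prod_sum_type]
    have h1 : ∏ _k : Unit, l.x ^ (l.w * t) = l.x ^ (l.w * t) := by rw [Fintype.prod_unique]
    have h2 : ∏ k, (L' k).x ^ 1 = ((starRingEnd ℂ) (l.x ^ t)) ^ l.w := by
      have h3 : ∀ k ∈ (Finset.univ : Finset κ), (L' k).x ^ 1 = (starRingEnd ℂ) (l.x ^ t) := by
        intro k _
        rw [pow_one, hLx, hmem']
      rw [Finset.prod_congr rfl h3, Finset.prod_const, Finset.card_univ, hcard]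
    change (∏ _k : Unit, l.x ^ (l.w * t)) * ∏ k, (L' k).x ^ 1 = _
    rw [h1, h2, mul_comm l.w t, pow_mul, ← mul_pow, hnorm, ← pow_mul]

theorem Gd_zero {b : ℕ} {κ₀ : Type} [Fintype κ₀] [IsEmpty κ₀] (L₀ : κ₀ → Letter p H) :
    Gd 𝒜 b L₀ 0 := by
  intro κ _ L u hL hu hmap
  have h1 : IsEmpty κ := by
    rw [Multiset.map_eq_zero] at hmap
    constructor
    intro k
    have h2 := Finset.mem_univ_val k
    rw [hmap] at h2
    exact Multiset.notMem_zero _ h2
  exact Wd_empty hD _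

/-- The relations for several varieties. -/
theorem Gd_letters {b d m B W : ℕ} (hb : 0 < b) (hm : 0 < m) (hDD : B + W * (d * (2 * m)) ≤ D)
    (κ₀ : Type) [Finite κ₀] : ∀ [Fintype κ₀] (L₀ : κ₀ → Letter p H) (t : κ₀ → ℕ),
      (∀ k, IsPure p B W (frob H (L₀ k).1)) → (∀ k, b = (L₀ k).a * (L₀ k).w * t k) →
      (∀ k, IsMember p b {1} d m ((L₀ k).x ^ t k)) →
      Gd 𝒜 b L₀ (∑ k, Multiset.replicate (L₀ k).w ((starRingEnd ℂ) ((L₀ k).x ^ t k))) := by
  refine Finite.induction_empty_option (P := fun κ₀ : Type =>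
    ∀ [Fintype κ₀] (L₀ : κ₀ → Letter p H) (t : κ₀ → ℕ),
      (∀ k, IsPure p B W (frob H (L₀ k).1)) → (∀ k, b = (L₀ k).a * (L₀ k).w * t k) →
      (∀ k, IsMember p b {1} d m ((L₀ k).x ^ t k)) →
      Gd 𝒜 b L₀ (∑ k, Multiset.replicate (L₀ k).w ((starRingEnd ℂ) ((L₀ k).x ^ t k))))
    ?_ ?_ ?_ κ₀
  · intro α β e ih _ L₀ t h1 h2 h3
    have _ : Fintype α := Fintype.ofEquiv β e.symm
    have h4 := ih (fun k => L₀ (e k)) (fun k => t (e k)) (fun k => h1 _) (fun k => h2 _)
      (fun k => h3 _)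
    rw [Equiv.sum_comp e (fun k => Multiset.replicate (L₀ k).w ((starRingEnd ℂ) ((L₀ k).x ^ t k)))]
      at h4
    exact Gd_equiv h𝒜 hD e (fun _ => rfl) h4
  · intro _ L₀ t _ _ _
    rw [Fintype.sum_empty]
    exact Gd_zero h𝒜 hD L₀
  · intro α _ ih inst L₀ t h1 h2 h3
    have hinst : inst = instFintypeOption := Subsingleton.elim _ _
    subst hinst
    have h4 := ih (fun k => L₀ (some k)) (fun k => t (some k)) (fun k => h1 _) (fun k => h2 _)
      (fun k => h3 _)
    have h5 := Gd_letter h𝒜 hD hb hm hDD (L₀ none) (h1 none) (t none) (h2 none) (h3 none)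
    have h6 := Gd_join h𝒜 hD h4 h5
    rw [Fintype.sum_option, add_comm]
    refine Gd_equiv h𝒜 hD (Equiv.optionEquivSumPUnit α).symm ?_ h6
    rintro (k | k) <;> rfl

end

theorem expand {κ : Type} [Fintype κ] (Y : κ → AbVar p ⊕ 𝒳)
    (φ : MultilinearMap ℂ (fun k => (frob H (Y k)).V) ℂ) :
    ∃ (T : Type) (_ : Fintype T) (i : T → ∀ k, (frob H (Y k)).ι) (c : T → ℂ),
      φ = ∑ t, c t • (mono fun k => (⟨Y k, i t k⟩ : Letter p H)) ∧ ∀ t, c t ≠ 0 →
        ∃ x : ∀ k, (frob H (Y k)).V, (∀ k, ∀ s : ℕ, ((frob H (Y k)).F ^ s) (x k) =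
          (frob H (Y k)).eig (i t k) ^ s • x k) ∧ φ x ≠ 0 := by
  classical
  refine ⟨(∀ k, (frob H (Y k)).ι), inferInstance, fun i => i,
    fun i => φ (fun k => (Pi.single (i k) 1 : (frob H (Y k)).V)), ?_, fun i hi =>
      ⟨fun k => (Pi.single (i k) 1 : (frob H (Y k)).V), fun k s => ?_, hi⟩⟩
  swap
  · funext t
    rw [F_pow_apply, Pi.smul_apply, smul_eq_mul]
    change (frob H (Y k)).eig t ^ s * (Pi.single (i k) 1 : (frob H (Y k)).V) t =
      (frob H (Y k)).eig (i k) ^ s * (Pi.single (i k) 1 : (frob H (Y k)).V) t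
    by_cases ht : t = i k
    · rw [ht]
    · rw [Pi.single_eq_of_ne ht, mul_zero, mul_zero]
  refine MultilinearMap.ext fun v => ?_
  have h1 : v = fun k => ∑ l, v k l • (Pi.single l 1 : (frob H (Y k)).V) := by
    funext k
    funext t
    rw [Finset.sum_apply, Finset.sum_eq_single t]
    · simp
    · intro l _ hl
      simp [hl]
    · intro h
      exact absurd (Finset.mem_univ t) h
  conv_lhs => rw [h1]
  rw [φ.map_sum, sum_apply]
  refine Finset.sum_congr rfl fun i _ => ?_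
  rw [φ.map_smul_univ, smul_apply, mono_apply, smul_eq_mul, smul_eq_mul, mul_comm]

theorem sum_mem {𝒜 : ClassSystem p H} (h𝒜 : IsStable H 𝒜) {κ : Type} [Fintype κ]
    (Y : κ → AbVar p ⊕ 𝒳) {T : Type} (S : Finset T)
    (φ : T → MultilinearMap ℂ (fun k => (frob H (Y k)).V) ℂ)
    (h : ∀ t ∈ S, 𝒜 κ Y (φ t)) : 𝒜 κ Y (∑ t ∈ S, φ t) := by
  classical
  induction S using Finset.induction_on with
  | empty => exact h𝒜.zero Y
  | insert t S ht ih =>
    rw [Finset.sum_insert ht]
    exact h𝒜.add Y _ _ (h t (Finset.mem_insert_self t S))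
      (ih fun y hy => h y (Finset.mem_insert_of_mem hy))

theorem map_univ {κ : Type} [Fintype κ] (f : κ → ℂ) :
    (Finset.univ : Finset κ).val.map f = ∑ k, {f k} := by
  change _ = ((Finset.univ : Finset κ).val.map fun k => ({f k} : Multiset ℂ)).sum
  have h1 : ((Finset.univ : Finset κ).val.map fun k => ({f k} : Multiset ℂ)) =
      ((Finset.univ : Finset κ).val.map f).map fun x => {x} := by
    rw [Multiset.map_map]
    rfl
  rw [h1, Multiset.sum_map_singleton]

theorem isPure_mono {B W B' W' : ℕ} (hB : B ≤ B') (hW : W ≤ W') {C : Frob} (h : IsPure p B W C) :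
    IsPure p B' W' C :=
  { h with
    weight_le := h.weight_le.trans hW
    card_le := h.card_le.trans hB }

/-- The eigenvalue of a letter over large extensions of the ground field. -/
theorem exists_level {d W : ℕ} (hW : 1 ≤ W) (l : Letter p H)
    (hX : ∀ X, l.1 = inr X → IsPure p d W (H X))
    (hA : ∀ A, l.1 = inl A → HasSmallFactors d A) (b u : ℕ) (hb : l.a * u = b) :
    ∃ S : ℕ, 0 < S ∧ ∀ e : ℕ, ∃ τ : ℕ, b * (S * e) = l.a * l.w * τ ∧
      IsMember p (b * (S * e)) {1} d (d.factorial * W.factorial) (l.x ^ τ) := by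
  obtain ⟨Y, i⟩ := l
  cases Y with
  | inl A =>
    obtain ⟨A', j, s, t, hc, hs, ht, hst, heq⟩ := hA A rfl i
    refine ⟨s, hs, fun e => ⟨u * (s * e), ?_, ?_⟩⟩
    · change b * (s * e) = A.a * 1 * (u * (s * e))
      change A.a * u = b at hb
      rw [← hb]
      ring
    · have h1 : A.frob.eig i ^ (u * (s * e)) = A'.frob.eig j ^ (t * (u * e)) := by
        have h2 : u * (s * e) = s * (u * e) := by ring
        rw [h2, pow_mul, heq, ← pow_mul]
      have h2 : b * (s * e) = A'.frob.a * A'.frob.w * (t * (u * e)) := by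
        change A.a * u = b at hb
        change b * (s * e) = A'.a * 1 * (t * (u * e))
        rw [← hb]
        calc A.a * u * (s * e) = A.a * s * (u * e) := by ring
          _ = A'.a * t * (u * e) := by rw [hst]
          _ = _ := by ring
      change IsMember p (b * (s * e)) {1} d _ (A.frob.eig i ^ (u * (s * e)))
      rw [h1, h2]
      exact member_of_pure (isPure_of_small A' hc hW) j _
  | inr X =>
    have hP := hX X rfl
    refine ⟨(H X).w, hP.weight_pos, fun e => ⟨u * e, ?_, ?_⟩⟩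
    · change b * ((H X).w * e) = (H X).a * (H X).w * (u * e)
      change (H X).a * u = b at hb
      rw [← hb]
      ring
    · have h2 : b * ((H X).w * e) = (H X).a * (H X).w * (u * e) := by
        change (H X).a * u = b at hb
        rw [← hb]
        ring
      rw [h2]
      exact member_of_pure hP i _

/-- **The Tate conjecture for products of any number of varieties with bounded Betti numbers and of
abelian varieties with simple factors of bounded dimension.** -/
theorem main_geo (B W : ℕ) : ∃ D : ℕ, ∀ (p : ℕ) [Fact p.Prime] (𝒳 : Type) (H : 𝒳 → Frob),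
    (∀ X, IsPure p B W (H X)) → ∀ 𝒜 : ClassSystem p H, IsStable H 𝒜 →
    (∀ (κ : Type) [Fintype κ] (Y : κ → AbVar p ⊕ 𝒳), AtMostOneVariety Y →
      ∑ k, Nat.card (frob H (Y k)).ι ≤ D → ∀ φ, IsTateClass H Y φ → 𝒜 κ Y φ) →
    ∀ (κ : Type) [Fintype κ] (Y : κ → AbVar p ⊕ 𝒳),
      (∀ k A, Y k = inl A → HasSmallFactors B A) → ∀ φ, IsTateClass H Y φ → 𝒜 κ Y φ := by
  classical
  set d : ℕ := B + 1 with hd
  set W' : ℕ := W + 1 with hW'
  have hd0 : 0 < d := Nat.succ_pos B
  have hW0 : 1 ≤ W' := Nat.succ_pos W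
  set m : ℕ := d.factorial * W'.factorial with hm
  have hm0 : 0 < m := Nat.mul_pos (Nat.factorial_pos d) (Nat.factorial_pos W')
  obtain ⟨N, hN⟩ := main {1} d m (Finset.mem_singleton_self 1) hd0 hm0
  set r : ℕ := 2 * d.factorial with hr
  have hr0 : 0 < r := by positivity
  set m' : ℕ := 2 * m * d.factorial with hm'
  have hm'0 : 0 < m' := by positivity
  refine ⟨N * (d * (2 * m')) + (d + W' * (d * (2 * m'))),
    fun p _ 𝒳 H hH 𝒜 h𝒜 hsmall κ _ Y hY φ hφ => ?_⟩
  have hD : Small 𝒜 (N * (d * (2 * m')) + (d + W' * (d * (2 * m')))) := hsmall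
  have hp1 : 1 < p := (Fact.out : p.Prime).one_lt
  obtain ⟨u, b, mT, hb, hu, hweight, hφ⟩ := hφ
  obtain ⟨T, _, ii, c, hc1, hc2⟩ := expand Y φ
  rw [hc1]
  refine sum_mem h𝒜 Y _ _ fun t₀ _ => ?_
  by_cases h0 : c t₀ = 0
  · rw [h0, zero_smul]
    exact h𝒜.zero Y
  refine h𝒜.smul Y _ _ ?_
  obtain ⟨x, hx1, hx2⟩ := hc2 t₀ h0
  generalize ii t₀ = i at hx1 ⊢
  let L : κ → Letter p H := fun k => ⟨Y k, i k⟩
  change Wd 𝒜 L
  -- the product of the eigenvalues
  have hprod : ∏ k, (L k).x ^ u k = (p : ℂ) ^ (b * mT) := by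
    have h1 := hφ x
    have h2 : (fun k => ((frob H (Y k)).F ^ u k) (x k)) = fun k => (L k).x ^ u k • x k := by
      funext k
      exact hx1 k (u k)
    rw [h2, φ.map_smul_univ, smul_eq_mul] at h1
    exact mul_right_cancel₀ hx2 h1
  have hpureX : ∀ k X, (L k).1 = inr X → IsPure p d W' (H X) := fun k X _ =>
    isPure_mono (Nat.le_succ B) (Nat.le_succ W) (hH X)
  have hsmallA : ∀ k A, (L k).1 = inl A → HasSmallFactors d A := by
    intro k A hA i
    obtain ⟨A', j, s, t, h1, h2⟩ := hY k A hA i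
    exact ⟨A', j, s, t, h1.trans (Nat.le_succ B), h2⟩
  choose S hS0 hS using fun k => exists_level hW0 (L k) (hpureX k) (hsmallA k) b (u k) (hu k)
  -- a common extension of the ground fields
  let S₀ : ℕ := ∏ k, S k
  have hS₀ : 0 < S₀ := Finset.prod_pos fun k _ => hS0 k
  have hlevel : ∀ k, ∃ τ : ℕ, b * S₀ = (L k).a * (L k).w * τ ∧
      IsMember p (b * S₀) {1} d m ((L k).x ^ τ) ∧
      IsMember p (b * S₀ * r) {1} d m ((L k).x ^ (τ * r)) := by
    intro k
    obtain ⟨e, he⟩ : S k ∣ S₀ := Finset.dvd_prod_of_mem S (Finset.mem_univ k)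
    obtain ⟨τ, h1, h2⟩ := hS k e
    obtain ⟨τ', h3, h4⟩ := hS k (e * r)
    rw [← he] at h1 h2
    have h5 : b * (S k * (e * r)) = b * S₀ * r := by
      rw [he]
      ring
    rw [h5] at h3 h4
    have hpos : 0 < (L k).a * (L k).w := by
      rcases Nat.eq_zero_or_pos ((L k).a * (L k).w) with h6 | h6
      · rw [h6, zero_mul] at h1
        exact absurd h1 (Nat.mul_pos hb hS₀).ne'
      · exact h6
    have h6 : τ' = τ * r := by
      have h7 : (L k).a * (L k).w * τ' = (L k).a * (L k).w * (τ * r) := by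
        rw [← h3, h1]
        ring
      exact Nat.eq_of_mul_eq_mul_left hpos h7
    rw [h6] at h4
    exact ⟨τ, h1, h2, h4⟩
  choose τ hτ1 hτ2 hτ3 using hlevel
  have hb1 : 0 < b * S₀ := Nat.mul_pos hb hS₀
  have hb2 : 0 < b * S₀ * r := Nat.mul_pos hb1 hr0
  have hexp : ∀ k, τ k * (L k).w = u k * S₀ := by
    intro k
    have ha : 0 < (L k).a := by
      rcases Nat.eq_zero_or_pos (L k).a with h6 | h6
      · have h7 := hτ1 k
        rw [h6, zero_mul, zero_mul] at h7
        exact absurd h7 hb1.ne'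
      · exact h6
    have h1 : (L k).a * (τ k * (L k).w) = (L k).a * (u k * S₀) := by
      have h2 : (L k).a * u k = b := hu k
      calc (L k).a * (τ k * (L k).w) = (L k).a * (L k).w * τ k := by ring
        _ = b * S₀ := (hτ1 k).symm
        _ = (L k).a * u k * S₀ := by rw [h2]
        _ = _ := by ring
    exact Nat.eq_of_mul_eq_mul_left ha h1
  -- the multiset of Weil numbers of weight one
  let T₀ : Multiset ℂ := ∑ k, Multiset.replicate (L k).w ((L k).x ^ τ k)
  have hT₀mem : ∀ α ∈ T₀, IsMember p (b * S₀) {1} d m α := by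
    intro α hα
    obtain ⟨k, -, hk⟩ := Multiset.mem_sum.1 hα
    rw [Multiset.eq_of_mem_replicate hk]
    exact hτ2 k
  have hT₀prod : T₀.prod = ((p : ℂ) ^ (b * mT)) ^ S₀ := by
    have h1 : T₀.prod = ∏ k, (Multiset.replicate (L k).w ((L k).x ^ τ k)).prod :=
      Multiset.prod_sum _ _
    rw [h1, ← hprod, ← Finset.prod_pow]
    refine Finset.prod_congr rfl fun k _ => ?_
    rw [Multiset.prod_replicate, ← pow_mul, ← pow_mul, hexp]
  have hgen := hN p (b * S₀) hb1 T₀ hT₀mem ⟨mT, 1, one_pos, by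
    rw [pow_one, hT₀prod]
    push_cast
    rw [← pow_mul, ← pow_mul]
    congr 1
    ring⟩
  have hmapsum : ∀ {κ : Type} [Fintype κ] (f : κ → Multiset ℂ) (g : ℂ → ℂ),
      (∑ k, f k).map g = ∑ k, (f k).map g := fun f g =>
    map_sum (Multiset.mapAddMonoidHom g) f Finset.univ
  have hT₀r : T₀.map (fun α => α ^ (2 * d.factorial)) =
      ∑ k, Multiset.replicate (L k).w ((L k).x ^ (τ k * r)) := by
    rw [hmapsum]
    refine Finset.sum_congr rfl fun k _ => ?_
    rw [Multiset.map_replicate, ← pow_mul]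
  rw [hT₀r] at hgen
  -- the varieties and the abelian varieties
  let κ₁ : Type := {k // (Y k).isRight}
  let κ₂ : Type := {k // ¬ (Y k).isRight}
  let e : κ₁ ⊕ κ₂ ≃ κ := Equiv.sumCompl fun k => (Y k).isRight = true
  have hleft : ∀ k : κ₂, (L k.1).1.isLeft := by
    intro k
    have h1 := k.2
    change (Y k.1).isLeft
    rcases h2 : Y k.1 with A | X
    · rfl
    · rw [h2] at h1
      exact absurd rfl h1
  have hw2 : ∀ k : κ₂, (L k.1).w = 1 := by
    intro k
    obtain ⟨A, j, hA⟩ := abVar_of_isLeft (L k.1) (hleft k)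
    rw [hA]
    rfl
  let M : Multiset ℂ := ∑ k : κ₁, Multiset.replicate (L k.1).w ((L k.1).x ^ (τ k.1 * r))
  let s₂ : Multiset ℂ := (Finset.univ : Finset κ₂).val.map fun k => (L k.1).x ^ (τ k.1 * r)
  have hsplit : ∑ k, Multiset.replicate (L k).w ((L k).x ^ (τ k * r)) = s₂ + M := by
    rw [← Fintype.sum_equiv e (fun k => Multiset.replicate (L (e k)).w
      ((L (e k)).x ^ (τ (e k) * r))) _ fun _ => rfl, Fintype.sum_sum_type, add_comm]
    congr 1
    have hs2 : s₂ = ∑ k : κ₂, {(L k.1).x ^ (τ k.1 * r)} := map_univ _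
    rw [hs2]
    refine Finset.sum_congr rfl fun k _ => ?_
    change Multiset.replicate (L k.1).w ((L k.1).x ^ (τ k.1 * r)) = _
    rw [hw2 k, Multiset.replicate_one]
  rw [hsplit] at hgen
  have hND : N * (d * (2 * m')) ≤ N * (d * (2 * m')) + (d + W' * (d * (2 * m'))) :=
    Nat.le_add_right _ _
  have hDD : d + W' * (d * (2 * m')) ≤ N * (d * (2 * m')) + (d + W' * (d * (2 * m'))) :=
    Nat.le_add_left _ _
  have hmono : ∀ k, IsMember p (b * S₀ * r) {1} d m' ((L k).x ^ (τ k * r)) := by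
    intro k
    have h1 := member_mono (2 * d.factorial) (hτ3 k)
    have h2 : 2 * d.factorial * m = m' := by
      rw [hm']
      ring
    rwa [h2] at h1
  have hG1 : Gd 𝒜 (b * S₀ * r) (fun k : Empty => (Empty.elim k : Letter p H)) (s₂ + M) :=
    Gd_generated h𝒜 hD hb2 hm'0 hND hgen
  have hG2 := Gd_letters h𝒜 hD hb2 hm'0 hDD κ₁ (fun k => L k.1) (fun k => τ k.1 * r)
    (fun k => by
      have h1 := k.2
      rcases h2 : Y k.1 with A | X
      · rw [h2] at h1
        exact absurd h1 (by simp)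
      · have h3 := hpureX k.1 X h2
        change IsPure p d W' (frob H (Y k.1))
        rw [h2]
        exact h3)
    (fun k => by
      rw [hτ1 k.1]
      ring)
    (fun k => hmono k.1)
  have hG3 : ∑ k : κ₁, Multiset.replicate (L k.1).w ((starRingEnd ℂ) ((L k.1).x ^ (τ k.1 * r))) =
      M.map (starRingEnd ℂ) := by
    have h1 := hmapsum (fun k : κ₁ => Multiset.replicate (L k.1).w ((L k.1).x ^ (τ k.1 * r)))
      (starRingEnd ℂ)
    change _ = Multiset.map (starRingEnd ℂ) (∑ k : κ₁, _)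
    rw [h1]
    exact Finset.sum_congr rfl fun k _ => (Multiset.map_replicate _ _ _).symm
  rw [hG3] at hG2
  have hG4 : Gd 𝒜 (b * S₀ * r) (fun k : κ₁ => L k.1) (s₂ + M + M.map (starRingEnd ℂ)) := by
    refine Gd_equiv h𝒜 hD (Equiv.emptySum Empty κ₁) ?_ (Gd_join h𝒜 hD hG1 hG2)
    rintro (k | k)
    · exact k.elim
    · rfl
  have hG5 : Gd 𝒜 (b * S₀ * r) (fun k : κ₁ => L k.1) s₂ := by
    refine Gd_cancel_all h𝒜 hD (d := d) hb2 hm'0 M (fun α hα => ?_) hG4
    obtain ⟨k, -, hk⟩ := Multiset.mem_sum.1 hα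
    rw [Multiset.eq_of_mem_replicate hk]
    exact hmono k.1
  have hG6 := hG5 κ₂ (fun k => L k.1) (fun k => τ k.1 * r) hleft (fun k => by
    have h1 := hτ1 k.1
    rw [hw2 k, mul_one] at h1
    rw [h1]
    ring) rfl
  refine Wd_equiv h𝒜 hD e L ?_
  have h1 : (fun k => L (e k)) = Sum.elim (fun k : κ₁ => L k.1) fun k : κ₂ => L k.1 := by
    funext k
    rcases k with k | k <;> rfl
  rw [h1]
  exact hG6

end

end Pool.Agent.Y137.BG
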